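import Mathlib

/-!
# Counting commuting pairs

General counting lemmas used for MP_58d2c7: the number of commuting pairs of a finite group whose
first entry satisfies a class-invariant condition, a fibre product formula, and the inequality
`k(H) ≤ k(ker f) k(range f)`.
-/

namespace Pool.Agent.V1115.KL

open Finset

section basic

variable {G : Type*} [Group G] [Finite G]

/-- the number of conjugacy classes -/
noncomputable def kcl (G : Type*) [Group G] : ℕ := Nat.card (ConjClasses G)

/-- the number of commuting pairs with entries subject to `P` and `Q` -/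
noncomputable def cpn {G : Type*} [Group G] (P Q : G → Prop) : ℕ :=
  Nat.card {p : G × G // Commute p.1 p.2 ∧ P p.1 ∧ Q p.2}

/-- the number of classes containing an element with `R` -/
noncomputable def kn {G : Type*} [Group G] (R : G → Prop) : ℕ :=
  Nat.card {c : ConjClasses G // ∃ g, ConjClasses.mk g = c ∧ R g}

omit [Finite G] in
theorem cpn_eq_card [Fintype G] (P Q : G → Prop) [DecidablePred P] [DecidablePred Q]
    [DecidableRel (fun a b : G => Commute a b)] :
    cpn P Q = ((univ : Finset (G × G)).filter
      (fun p => Commute p.1 p.2 ∧ P p.1 ∧ Q p.2)).card := by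
  classical
  unfold cpn
  rw [Nat.card_eq_fintype_card, Fintype.card_subtype]

/-- class sum of centralizer orders -/
theorem class_count [Fintype G] [DecidableEq G] (g : G)
    [DecidableRel (fun a b : G => Commute a b)] [DecidablePred (IsConj g)] :
    ∑ x ∈ (univ : Finset G).filter (IsConj g), ((univ : Finset G).filter (Commute x)).card
      = Fintype.card G := by
  classical
  have h1 : Fintype.card G = ∑ x ∈ (univ : Finset G).filter (IsConj g),
      ((univ : Finset G).filter (fun h => h * g * h⁻¹ = x)).card := by
    rw [← Finset.card_univ]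
    rw [Finset.card_eq_sum_card_fiberwise (s := (univ : Finset G))
      (t := (univ : Finset G).filter (IsConj g)) (f := fun h => h * g * h⁻¹)]
    intro h _
    simp only [Finset.coe_filter, Set.mem_ofPred_eq, Finset.mem_univ, true_and]
    rw [isConj_iff]; exact ⟨h, rfl⟩
  rw [h1]
  apply Finset.sum_congr rfl
  intro x hx
  simp only [Finset.mem_filter, Finset.mem_univ, true_and] at hx
  rw [isConj_iff] at hx
  obtain ⟨c, hc⟩ := hx
  apply Finset.card_bij' (fun y _ => y * c) (fun h _ => h * c⁻¹)
  · intro y hy
    simp only [Finset.mem_filter, Finset.mem_univ, true_and] at hy ⊢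
    have : y * c * g * (y * c)⁻¹ = y * (c * g * c⁻¹) * y⁻¹ := by group
    rw [this, hc, ← hy.eq]; group
  · intro h hh
    simp only [Finset.mem_filter, Finset.mem_univ, true_and] at hh ⊢
    have e1 : h * c⁻¹ * x * (h * c⁻¹)⁻¹ = x := by
      rw [← hc]
      have : h * c⁻¹ * (c * g * c⁻¹) * (h * c⁻¹)⁻¹ = h * g * h⁻¹ := by group
      rw [this, hh, hc]
    have e2 : h * c⁻¹ * x = x * (h * c⁻¹) := by
      calc h * c⁻¹ * x = (h * c⁻¹ * x * (h * c⁻¹)⁻¹) * (h * c⁻¹) := by group
        _ = x * (h * c⁻¹) := by rw [e1]
    exact e2.symm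
  · intro y _; group
  · intro h _; group

/-- Burnside counting with a class-invariant condition on the first entry -/
theorem cpn_eq_kn (R : G → Prop) (hR : ∀ g h, IsConj g h → R g → R h) :
    cpn R (fun _ => True) = kn R * Nat.card G := by
  classical
  haveI := Fintype.ofFinite G
  rw [cpn_eq_card]
  have h1 : ((univ : Finset (G × G)).filter (fun p => Commute p.1 p.2 ∧ R p.1 ∧ True)).card
      = ∑ c ∈ (univ : Finset (ConjClasses G)).filter (fun c => ∃ g, ConjClasses.mk g = c ∧ R g),
        Fintype.card G := by
    rw [Finset.card_eq_sum_card_fiberwise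
      (s := (univ : Finset (G × G)).filter (fun p => Commute p.1 p.2 ∧ R p.1 ∧ True))
      (t := (univ : Finset (ConjClasses G)).filter (fun c => ∃ g, ConjClasses.mk g = c ∧ R g))
      (f := fun p => ConjClasses.mk p.1)]
    · apply Finset.sum_congr rfl
      intro c hc
      simp only [Finset.mem_filter, Finset.mem_univ, true_and] at hc
      obtain ⟨g, hg, hRg⟩ := hc
      rw [← class_count g]
      rw [← Finset.card_sigma]
      refine Finset.card_bij' (fun p _ => (⟨p.1, p.2⟩ : (_ : G) × G)) (fun q _ => (q.1, q.2))
        ?_ ?_ ?_ ?_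
      · intro p hp
        simp only [Finset.mem_filter, Finset.mem_univ, true_and, and_true] at hp
        simp only [Finset.mem_sigma, Finset.mem_filter, Finset.mem_univ, true_and]
        refine ⟨?_, hp.1.1⟩
        rw [← hg] at hp
        exact (ConjClasses.mk_eq_mk_iff_isConj.1 hp.2).symm
      · intro q hq
        simp only [Finset.mem_sigma, Finset.mem_filter, Finset.mem_univ, true_and] at hq
        simp only [Finset.mem_filter, Finset.mem_univ, true_and, and_true]
        refine ⟨⟨hq.2, hR _ _ hq.1 hRg⟩, ?_⟩
        rw [← hg]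
        exact ConjClasses.mk_eq_mk_iff_isConj.2 hq.1.symm
      · intro p _; rfl
      · intro q _; rfl
    · intro p hp
      simp only [Finset.coe_filter, Finset.mem_univ, true_and, and_true, Set.mem_ofPred_eq] at hp ⊢
      exact ⟨p.1, rfl, hp.2⟩
  rw [h1, Finset.sum_const, smul_eq_mul]
  unfold kn
  rw [Nat.card_eq_fintype_card, Nat.card_eq_fintype_card, Fintype.card_subtype]

theorem cpn_true : cpn (fun _ : G => True) (fun _ => True) = kcl G * Nat.card G := by
  unfold cpn kcl
  rw [← card_comm_eq_card_conjClasses_mul_card]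
  apply Nat.card_congr
  exact Equiv.subtypeEquivRight (by intro p; simp)

/-- commuting pairs inside a subgroup -/
theorem cpn_subgroup (K : Subgroup G) :
    cpn (fun x => x ∈ K) (fun x => x ∈ K) = kcl K * Nat.card K := by
  rw [← cpn_true]
  unfold cpn
  apply Nat.card_congr
  refine ⟨fun p => ⟨(⟨p.1.1, p.2.2.1⟩, ⟨p.1.2, p.2.2.2⟩), ?_, trivial, trivial⟩,
    fun q => ⟨(q.1.1, q.1.2), ?_, q.1.1.2, q.1.2.2⟩, ?_, ?_⟩
  · have := p.2.1.eq
    exact Subtype.ext this
  · have := q.2.1.eq
    exact congrArg Subtype.val this
  · intro p; rfl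
  · intro q; rfl

end basic

section fibre

variable {H A D C : Type*} [Group H] [Group A] [Group D] [Group C]
  [Finite H] [Finite A] [Finite D]

/-- the fibre product formula -/
theorem fibre_count (α : H →* A) (β : H →* D) (ε : A →* C) (η : D →* C)
    (hinj : ∀ x y, α x = α y → β x = β y → x = y)
    (hcomp : ∀ x, ε (α x) = η (β x))
    (hsurj : ∀ a d, ε a = η d → ∃ x, α x = a ∧ β x = d)
    (s δ : ℕ) (h11 : cpn (fun d => η d = 1) (fun d => η d = 1) = s + δ)
    (hst : ∀ u v, ¬ (u = 1 ∧ v = 1) → (∃ a, ε a = u) → (∃ a, ε a = v) →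
      cpn (fun d => η d = u) (fun d => η d = v) = s)
    (R : A → Prop) :
    cpn (fun x => R (α x)) (fun _ => True) =
      s * cpn R (fun _ => True) + δ * cpn (fun a => R a ∧ ε a = 1) (fun a => ε a = 1) := by
  classical
  haveI := Fintype.ofFinite H
  haveI := Fintype.ofFinite A
  haveI := Fintype.ofFinite D
  rw [cpn_eq_card, cpn_eq_card, cpn_eq_card]
  rw [Finset.card_eq_sum_card_fiberwise
      (s := (univ : Finset (H × H)).filter (fun p => Commute p.1 p.2 ∧ R (α p.1) ∧ True))
      (t := (univ : Finset (A × A)).filter (fun p => Commute p.1 p.2 ∧ R p.1 ∧ True))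
      (f := fun p => (α p.1, α p.2))]
  · have key : ∀ q ∈ (univ : Finset (A × A)).filter (fun p => Commute p.1 p.2 ∧ R p.1 ∧ True),
        (((univ : Finset (H × H)).filter (fun p => Commute p.1 p.2 ∧ R (α p.1) ∧ True)).filter
          (fun p => (α p.1, α p.2) = q)).card
        = s + (if ε q.1 = 1 ∧ ε q.2 = 1 then δ else 0) := by
      intro q hq
      simp only [Finset.mem_filter, Finset.mem_univ, true_and, and_true] at hq
      have e1 : (((univ : Finset (H × H)).filter
            (fun p => Commute p.1 p.2 ∧ R (α p.1) ∧ True)).filter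
          (fun p => (α p.1, α p.2) = q)).card
          = cpn (fun d => η d = ε q.1) (fun d => η d = ε q.2) := by
        rw [cpn_eq_card]
        apply Finset.card_bij (fun p _ => (β p.1, β p.2))
        · intro p hp
          simp only [Finset.mem_filter, Finset.mem_univ, true_and, and_true] at hp ⊢
          obtain ⟨⟨hc, _⟩, hpq⟩ := hp
          subst hpq
          exact ⟨hc.map β, (hcomp _).symm, (hcomp _).symm⟩
        · intro p hp p' hp' h
          simp only [Finset.mem_filter, Finset.mem_univ, true_and, and_true] at hp hp'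
          have h1 := hp.2.trans hp'.2.symm
          simp only [Prod.mk.injEq] at h h1
          exact Prod.ext (hinj _ _ h1.1 h.1) (hinj _ _ h1.2 h.2)
        · intro r hr
          simp only [Finset.mem_filter, Finset.mem_univ, true_and] at hr
          obtain ⟨x, hx1, hx2⟩ := hsurj q.1 r.1 hr.2.1.symm
          obtain ⟨y, hy1, hy2⟩ := hsurj q.2 r.2 hr.2.2.symm
          refine ⟨(x, y), ?_, ?_⟩
          · simp only [Finset.mem_filter, Finset.mem_univ, true_and, and_true]
            refine ⟨⟨?_, ?_⟩, ?_⟩
            · apply hinj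
              · rw [map_mul, map_mul, hx1, hy1]; exact hq.1.eq
              · rw [map_mul, map_mul, hx2, hy2]; exact hr.1.eq
            · rw [hx1]; exact hq.2
            · rw [hx1, hy1]
          · rw [hx2, hy2]
      rw [e1]
      split_ifs with h
      · rw [h.1, h.2, h11]
      · rw [hst _ _ h ⟨_, rfl⟩ ⟨_, rfl⟩, add_zero]
    rw [Finset.sum_congr rfl key, Finset.sum_add_distrib, Finset.sum_const, smul_eq_mul,
      mul_comm s]
    congr 1
    rw [← Finset.sum_filter, Finset.sum_const, smul_eq_mul, mul_comm δ, Finset.filter_filter]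
    congr 2
    ext p
    simp only [Finset.mem_filter, Finset.mem_univ, true_and, and_true]
    tauto
  · intro p hp
    simp only [Finset.coe_filter, Finset.mem_univ, true_and, and_true, Set.mem_ofPred_eq] at hp ⊢
    exact ⟨hp.1.map α, hp.2⟩

omit [Finite A] in
/-- commuting pairs in two given cosets of the kernel -/
theorem coset_count [Fintype H] [DecidableEq A] [DecidableRel (fun a b : H => Commute a b)]
    (f : H →* A) (b b' : A) :
    ((univ : Finset (H × H)).filter
      (fun p => Commute p.1 p.2 ∧ f p.1 = b ∧ f p.2 = b')).card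
    ≤ ((univ : Finset (H × H)).filter
      (fun p => Commute p.1 p.2 ∧ f p.1 = 1 ∧ f p.2 = 1)).card := by
  classical
  have L1 : ∀ (x : H) (b' : A),
      ((univ : Finset H).filter (fun y => f y = b' ∧ Commute x y)).card ≤
      ((univ : Finset H).filter (fun y => f y = 1 ∧ Commute x y)).card := by
    intro x b'
    by_cases hne : ((univ : Finset H).filter (fun y => f y = b' ∧ Commute x y)).Nonempty
    · obtain ⟨y0, hy0⟩ := hne
      simp only [Finset.mem_filter, Finset.mem_univ, true_and] at hy0
      apply Finset.card_le_card_of_injOn (fun y => y0⁻¹ * y)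
      · intro y hy
        simp only [Finset.coe_filter, Finset.mem_univ, true_and, Set.mem_ofPred_eq] at hy ⊢
        refine ⟨?_, hy0.2.inv_right.mul_right hy.2⟩
        rw [map_mul, map_inv, hy0.1, hy.1]; group
      · intro y _ y' _ h
        exact mul_left_cancel h
    · rw [Finset.not_nonempty_iff_eq_empty.1 hne]; simp
  have S : ∀ (b b' : A), ((univ : Finset (H × H)).filter
      (fun p => Commute p.1 p.2 ∧ f p.1 = b ∧ f p.2 = b')).card =
      ∑ x ∈ (univ : Finset H).filter (fun x => f x = b),
        ((univ : Finset H).filter (fun y => f y = b' ∧ Commute x y)).card := by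
    intro b b'
    rw [← Finset.card_sigma]
    apply Finset.card_bij' (fun p _ => (⟨p.1, p.2⟩ : (_ : H) × H)) (fun q _ => (q.1, q.2))
    · intro p hp
      simp only [Finset.mem_filter, Finset.mem_univ, true_and, Finset.mem_sigma] at hp ⊢
      tauto
    · intro p hp
      simp only [Finset.mem_filter, Finset.mem_univ, true_and, Finset.mem_sigma] at hp ⊢
      tauto
    · intro p _; rfl
    · intro p _; rfl
  have S' : ∀ (b b' : A), ((univ : Finset (H × H)).filter
      (fun p => Commute p.1 p.2 ∧ f p.1 = b ∧ f p.2 = b')).card =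
      ∑ y ∈ (univ : Finset H).filter (fun y => f y = b'),
        ((univ : Finset H).filter (fun x => f x = b ∧ Commute y x)).card := by
    intro b b'
    rw [← Finset.card_sigma]
    apply Finset.card_bij' (fun p _ => (⟨p.2, p.1⟩ : (_ : H) × H)) (fun q _ => (q.2, q.1))
    · intro p hp
      simp only [Finset.mem_filter, Finset.mem_univ, true_and, Finset.mem_sigma] at hp ⊢
      exact ⟨hp.2.2, hp.2.1, hp.1.symm⟩
    · intro p hp
      simp only [Finset.mem_filter, Finset.mem_univ, true_and, Finset.mem_sigma] at hp ⊢
      exact ⟨hp.2.2.symm, hp.2.1, hp.1⟩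
    · intro p _; rfl
    · intro p _; rfl
  calc ((univ : Finset (H × H)).filter
      (fun p => Commute p.1 p.2 ∧ f p.1 = b ∧ f p.2 = b')).card
      = ∑ x ∈ (univ : Finset H).filter (fun x => f x = b),
        ((univ : Finset H).filter (fun y => f y = b' ∧ Commute x y)).card := S b b'
    _ ≤ ∑ x ∈ (univ : Finset H).filter (fun x => f x = b),
        ((univ : Finset H).filter (fun y => f y = 1 ∧ Commute x y)).card :=
        Finset.sum_le_sum (fun x _ => L1 x b')
    _ = ((univ : Finset (H × H)).filter
      (fun p => Commute p.1 p.2 ∧ f p.1 = b ∧ f p.2 = 1)).card := (S b 1).symm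
    _ = ∑ y ∈ (univ : Finset H).filter (fun y => f y = 1),
        ((univ : Finset H).filter (fun x => f x = b ∧ Commute y x)).card := S' b 1
    _ ≤ ∑ y ∈ (univ : Finset H).filter (fun y => f y = 1),
        ((univ : Finset H).filter (fun x => f x = 1 ∧ Commute y x)).card :=
        Finset.sum_le_sum (fun x _ => L1 x b)
    _ = _ := (S' 1 1).symm

/-- `k(H) ≤ k(ker f) k(range f)` -/
theorem kcl_le (f : H →* A) : kcl H ≤ kcl f.ker * kcl f.range := by
  classical
  haveI := Fintype.ofFinite H
  haveI := Fintype.ofFinite A
  have hH : (0 : ℕ) < Nat.card H := Nat.card_pos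
  have hcard : Nat.card H = Nat.card f.ker * Nat.card f.range := by
    rw [← Subgroup.index_ker, mul_comm]
    exact (Subgroup.index_mul_card f.ker).symm
  have h1 : cpn (fun _ : H => True) (fun _ => True) ≤
      cpn (fun x => x ∈ f.ker) (fun x => x ∈ f.ker) *
        cpn (fun x => x ∈ f.range) (fun x => x ∈ f.range) := by
    rw [cpn_eq_card, cpn_eq_card, cpn_eq_card]
    rw [Finset.card_eq_sum_card_fiberwise
      (s := (univ : Finset (H × H)).filter (fun p => Commute p.1 p.2 ∧ True ∧ True))
      (t := (univ : Finset (A × A)).filter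
        (fun p => Commute p.1 p.2 ∧ p.1 ∈ f.range ∧ p.2 ∈ f.range))
      (f := fun p => (f p.1, f p.2))]
    · rw [mul_comm, ← smul_eq_mul, ← Finset.sum_const]
      apply Finset.sum_le_sum
      intro q _
      have := coset_count f q.1 q.2
      simp only [MonoidHom.mem_ker]
      refine le_trans (le_of_eq ?_) this
      congr 1
      ext p
      simp only [Finset.mem_filter, Finset.mem_univ, true_and, and_true, Prod.ext_iff]
    · intro p hp
      simp only [Finset.coe_filter, Finset.mem_univ, true_and, and_true, Set.mem_ofPred_eq] at hp ⊢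
      exact ⟨hp.map f, ⟨_, rfl⟩, ⟨_, rfl⟩⟩
  rw [cpn_true, cpn_subgroup, cpn_subgroup, hcard] at h1
  rw [hcard] at hH
  have : kcl H * (Nat.card f.ker * Nat.card f.range) ≤
      (kcl f.ker * kcl f.range) * (Nat.card f.ker * Nat.card f.range) := by
    calc _ ≤ _ := h1
      _ = _ := by ring
  exact Nat.le_of_mul_le_mul_right this hH

end fibre

/-- the number of classes is at most the order -/
theorem kcl_le_card (G : Type*) [Group G] [Finite G] : kcl G ≤ Nat.card G := by
  unfold kcl
  exact Nat.card_le_card_of_surjective (ConjClasses.mk (α := G)) ConjClasses.mk_surjective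

theorem kcl_congr {G K : Type*} [Group G] [Group K] (e : G ≃* K) : kcl G = kcl K := by
  unfold kcl
  apply Nat.card_congr
  refine ⟨ConjClasses.map e.toMonoidHom, ConjClasses.map e.symm.toMonoidHom, ?_, ?_⟩
  · intro c
    obtain ⟨g, rfl⟩ := ConjClasses.exists_rep c
    exact congrArg ConjClasses.mk (e.symm_apply_apply g)
  · intro c
    obtain ⟨g, rfl⟩ := ConjClasses.exists_rep c
    exact congrArg ConjClasses.mk (e.apply_symm_apply g)

end Pool.Agent.V1115.KL
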