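import Pool.Agent.V1115.KL.Count

/-!
# The extraspecial group of order 128

The Heisenberg group `D` over `F_2` of order `2^(1+6)`, the linear character `η`, and the numbers
of commuting pairs with prescribed values of `η`.
-/

namespace Pool.Agent.V1115.KL

/-- the Heisenberg group of order `128` -/
@[ext] structure D where
  a0 : ZMod 2
  a1 : ZMod 2
  a2 : ZMod 2
  b0 : ZMod 2
  b1 : ZMod 2
  b2 : ZMod 2
  c : ZMod 2
  deriving DecidableEq

namespace D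

instance : Mul D := ⟨fun x y => ⟨x.a0 + y.a0, x.a1 + y.a1, x.a2 + y.a2, x.b0 + y.b0,
  x.b1 + y.b1, x.b2 + y.b2, x.c + y.c + (x.a0 * y.b0 + x.a1 * y.b1 + x.a2 * y.b2)⟩⟩
instance : One D := ⟨⟨0, 0, 0, 0, 0, 0, 0⟩⟩
instance : Inv D := ⟨fun x => ⟨-x.a0, -x.a1, -x.a2, -x.b0, -x.b1, -x.b2,
  -x.c + (x.a0 * x.b0 + x.a1 * x.b1 + x.a2 * x.b2)⟩⟩

theorem mul_def (x y : D) : x * y = ⟨x.a0 + y.a0, x.a1 + y.a1, x.a2 + y.a2, x.b0 + y.b0,
  x.b1 + y.b1, x.b2 + y.b2, x.c + y.c + (x.a0 * y.b0 + x.a1 * y.b1 + x.a2 * y.b2)⟩ := rfl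
theorem one_def : (1 : D) = ⟨0, 0, 0, 0, 0, 0, 0⟩ := rfl
theorem inv_def (x : D) : x⁻¹ = ⟨-x.a0, -x.a1, -x.a2, -x.b0, -x.b1, -x.b2,
  -x.c + (x.a0 * x.b0 + x.a1 * x.b1 + x.a2 * x.b2)⟩ := rfl

instance : Group D := Group.ofLeftAxioms
  (by intro x y z; simp only [mul_def]; ext <;> simp only <;> ring)
  (by intro x; simp only [mul_def, one_def]; ext <;> simp only <;> ring)
  (by intro x; simp only [mul_def, one_def, inv_def]; ext <;> simp only <;> ring)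

/-- coordinates -/
def equiv : D ≃ ((ZMod 2 × ZMod 2 × ZMod 2) × (ZMod 2 × ZMod 2 × ZMod 2)) × ZMod 2 where
  toFun x := (((x.a0, x.a1, x.a2), (x.b0, x.b1, x.b2)), x.c)
  invFun p := ⟨p.1.1.1, p.1.1.2.1, p.1.1.2.2, p.1.2.1, p.1.2.2.1, p.1.2.2.2, p.2⟩
  left_inv _ := rfl
  right_inv _ := rfl

instance : Fintype D := Fintype.ofEquiv _ equiv.symm

/-- the linear character `a0` -/
def η : D →* Multiplicative (ZMod 2) where
  toFun x := Multiplicative.ofAdd x.a0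
  map_one' := rfl
  map_mul' _ _ := rfl

theorem commute_iff (x y : D) : Commute x y ↔
    x.a0 * y.b0 + x.a1 * y.b1 + x.a2 * y.b2 = y.a0 * x.b0 + y.a1 * x.b1 + y.a2 * x.b2 := by
  unfold Commute SemiconjBy
  rw [mul_def, mul_def, D.mk.injEq]
  constructor
  · rintro ⟨_, _, _, _, _, _, h⟩
    have h2 : x.c + y.c = y.c + x.c := add_comm _ _
    rw [h2] at h
    exact add_left_cancel h
  · intro h
    refine ⟨add_comm _ _, add_comm _ _, add_comm _ _, add_comm _ _, add_comm _ _,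
      add_comm _ _, ?_⟩
    rw [h, add_comm x.c]

/-- the pairing as a boolean -/
def tst (p q : (ZMod 2 × ZMod 2 × ZMod 2) × (ZMod 2 × ZMod 2 × ZMod 2)) : Bool :=
  decide (p.1.1 * q.2.1 + p.1.2.1 * q.2.2.1 + p.1.2.2 * q.2.2.2
    = q.1.1 * p.2.1 + q.1.2.1 * p.2.2.1 + q.1.2.2 * p.2.2.2)

/-- the count modulo the centre -/
def cnt (u v : ZMod 2) : ℕ :=
  Fintype.card {r : ((ZMod 2 × ZMod 2 × ZMod 2) × (ZMod 2 × ZMod 2 × ZMod 2)) ×
    ((ZMod 2 × ZMod 2 × ZMod 2) × (ZMod 2 × ZMod 2 × ZMod 2)) //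
      r.1.1.1 = u ∧ r.2.1.1 = v ∧ tst r.1 r.2 = true}

theorem cnt_00 : cnt 0 0 = 544 := by decide +kernel
theorem cnt_01 : cnt 0 1 = 512 := by decide +kernel
theorem cnt_10 : cnt 1 0 = 512 := by decide +kernel
theorem cnt_11 : cnt 1 1 = 512 := by decide +kernel

theorem cpn_eq (u v : ZMod 2) : cpn (fun x => η x = Multiplicative.ofAdd u)
    (fun x => η x = Multiplicative.ofAdd v) = 4 * cnt u v := by
  unfold cpn cnt
  rw [← Nat.card_eq_fintype_card]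
  have h4 : (4 : ℕ) = Nat.card (ZMod 2 × ZMod 2) := by
    rw [Nat.card_eq_fintype_card]; rfl
  rw [h4, ← Nat.card_prod]
  apply Nat.card_congr
  refine ⟨fun p => ((p.1.1.c, p.1.2.c), ⟨((equiv p.1.1).1, (equiv p.1.2).1), ?_, ?_, ?_⟩),
    fun q => ⟨(equiv.symm (q.2.1.1, q.1.1), equiv.symm (q.2.1.2, q.1.2)), ?_, ?_, ?_⟩, ?_, ?_⟩
  · exact p.2.2.1
  · exact p.2.2.2
  · exact decide_eq_true ((commute_iff _ _).1 p.2.1)
  · exact (commute_iff _ _).2 (of_decide_eq_true q.2.2.2.2)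
  · exact q.2.2.1
  · exact q.2.2.2.1
  · intro p; rfl
  · intro q; rfl

theorem card_D : Nat.card D = 128 := by
  rw [Nat.card_congr equiv]
  simp only [Nat.card_prod, Nat.card_zmod]

theorem count_11 : cpn (fun x => η x = 1) (fun x => η x = 1) = 2048 + 128 := by
  have := cpn_eq 0 0
  rw [cnt_00] at this
  exact this

theorem count_other (u v : Multiplicative (ZMod 2)) (h : ¬ (u = 1 ∧ v = 1)) :
    cpn (fun x => η x = u) (fun x => η x = v) = 2048 := by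
  have key : ∀ u' v' : ZMod 2, ¬ (u' = 0 ∧ v' = 0) → 4 * cnt u' v' = 2048 := by
    intro u' v' h'
    have hz : ∀ z : ZMod 2, z = 0 ∨ z = 1 := by decide
    have hu := hz u'
    have hv := hz v'
    rcases hu with rfl | rfl <;> rcases hv with rfl | rfl
    · exact absurd ⟨rfl, rfl⟩ h'
    · rw [cnt_01]
    · rw [cnt_10]
    · rw [cnt_11]
  have h1 := cpn_eq u.toAdd v.toAdd
  have h2 : 4 * cnt u.toAdd v.toAdd = 2048 := key _ _ h
  rw [h2] at h1
  exact h1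

end D

end Pool.Agent.V1115.KL
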