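import Pool.Agent.V1115.KL.Sub5
import Pool.Agent.V1115.KL.Heis

/-!
# The group of order 92160

`G0` is the fibre product of `PΓL(2,9)` and the extraspecial group of order 128 over `C_2`.
-/

namespace Pool.Agent.V1115.KL

open Finset

/-- the number of classes of `p`-regular elements -/
noncomputable def ell (p : ℕ) (G : Type) [Group G] : ℕ :=
  Nat.card {c : ConjClasses G // ∃ g : G, ConjClasses.mk g = c ∧ ¬ p ∣ orderOf g}

/-- the fibre product -/
def G0 : Subgroup (Equiv.Perm (Fin 10) × D) :=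
  A.comap (MonoidHom.prodMap (MonoidHom.id (Equiv.Perm (Fin 10))) D.η)

/-- projection to `PΓL(2,9)` -/
def α : G0 →* A where
  toFun x := ⟨(x.1.1, D.η x.1.2), x.2⟩
  map_one' := rfl
  map_mul' _ _ := rfl

/-- projection to `D` -/
def β : G0 →* D := (MonoidHom.snd _ _).comp G0.subtype

theorem εα (x : G0) : ε (α x) = D.η (β x) := rfl

theorem αβ_inj (x y : G0) (h1 : α x = α y) (h2 : β x = β y) : x = y := by
  have h := congrArg (fun z : A => z.1.1) h1
  exact Subtype.ext (Prod.ext h h2)

theorem αβ_surj (a : A) (d : D) (h : ε a = D.η d) : ∃ x, α x = a ∧ β x = d := by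
  have hmem : (a.1.1, d) ∈ G0 := by
    change (a.1.1, D.η d) ∈ A
    rw [← h]
    exact a.2
  refine ⟨⟨(a.1.1, d), hmem⟩, ?_, rfl⟩
  apply Subtype.ext
  exact Prod.ext rfl h.symm

theorem α_surj : Function.Surjective α := by
  intro a
  have hη : Function.Surjective D.η := by
    intro u
    exact ⟨⟨Multiplicative.toAdd u, 0, 0, 0, 0, 0, 0⟩, rfl⟩
  obtain ⟨d, hd⟩ := hη (ε a)
  obtain ⟨x, hx, _⟩ := αβ_surj a d hd.symm
  exact ⟨x, hx⟩

theorem card_T : Nat.card D.η.ker = 64 := by
  have h1 := Subgroup.index_mul_card D.η.ker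
  rw [Subgroup.index_ker, D.card_D] at h1
  have h2 : Nat.card D.η.range = 2 := by
    have hη : Function.Surjective D.η := by
      intro u
      exact ⟨⟨Multiplicative.toAdd u, 0, 0, 0, 0, 0, 0⟩, rfl⟩
    rw [MonoidHom.range_eq_top.2 hη, Subgroup.card_top]
    exact (Nat.card_congr Multiplicative.toAdd).trans (Nat.card_zmod 2)
  rw [h2] at h1
  omega

theorem kcl_T : kcl D.η.ker = 34 := by
  have h := cpn_subgroup D.η.ker
  rw [card_T] at h
  have h2 := D.count_11
  simp only [MonoidHom.mem_ker] at h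
  omega

theorem card_ker_α : Nat.card α.ker = 64 := by
  rw [← card_T]
  apply Nat.card_congr
  refine Equiv.ofBijective (fun x => ⟨β x.1, by
    rw [MonoidHom.mem_ker, ← εα, (MonoidHom.mem_ker).1 x.2, map_one]⟩) ⟨?_, ?_⟩
  · intro x y h
    have h' : β x.1 = β y.1 := Subtype.mk.inj h
    apply Subtype.ext
    exact αβ_inj _ _ (((MonoidHom.mem_ker).1 x.2).trans ((MonoidHom.mem_ker).1 y.2).symm) h'
  · rintro ⟨d, hd⟩
    rw [MonoidHom.mem_ker] at hd
    obtain ⟨x, hx1, hx2⟩ := αβ_surj 1 d (by rw [map_one, hd])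
    exact ⟨⟨x, hx1⟩, Subtype.ext hx2⟩

theorem card_split {H K : Type*} [Group H] [Group K] [Finite H] (f : H →* K) :
    Nat.card H = Nat.card f.ker * Nat.card f.range := by
  rw [← Subgroup.index_ker, mul_comm]
  exact (Subgroup.index_mul_card f.ker).symm

theorem card_G0 : Nat.card G0 = 92160 := by
  rw [card_split α, card_ker_α, MonoidHom.range_eq_top.2 α_surj, Subgroup.card_top, card_A]

/-! ### lower bound -/

theorem kn_ge {G : Type*} [Group G] [Finite G] (R : G → Prop) {n : ℕ} (e : Fin n → G)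
    (hR : ∀ i, R (e i)) (hne : ∀ i j, IsConj (e i) (e j) → i = j) : n ≤ kn R := by
  have : Nat.card (Fin n) ≤ kn R := by
    unfold kn
    apply Nat.card_le_card_of_injective
      (fun i => (⟨ConjClasses.mk (e i), e i, rfl, hR i⟩ :
        {c : ConjClasses G // ∃ g, ConjClasses.mk g = c ∧ R g}))
    intro i j h
    exact hne i j (ConjClasses.mk_eq_mk_iff_isConj.1 (Subtype.mk.inj h))
  simpa using this

theorem cpn_subgroup_R {G : Type*} [Group G] [Finite G] (K : Subgroup G) (R : G → Prop)
    (hR : ∀ g h, IsConj g h → R g → R h) :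
    cpn (fun x => R x ∧ x ∈ K) (fun x => x ∈ K) = kn (fun x : K => R x.1) * Nat.card K := by
  rw [← cpn_eq_kn (fun x : K => R x.1)
    (fun g h hc hr => hR g.1 h.1 (K.subtype.map_isConj hc) hr)]
  unfold cpn
  apply Nat.card_congr
  refine ⟨fun p => ⟨(⟨p.1.1, p.2.2.1.2⟩, ⟨p.1.2, p.2.2.2⟩), ?_, p.2.2.1.1, trivial⟩,
    fun q => ⟨(q.1.1, q.1.2), ?_, ⟨q.2.2.1, q.1.1.2⟩, q.1.2.2⟩, ?_, ?_⟩
  · exact Subtype.ext p.2.1.eq
  · exact congrArg Subtype.val q.2.1.eq
  · intro p; rfl
  · intro q; rfl

/-- an invariant of conjugacy classes -/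
def Φ (x : Am) : ((Bool × Bool) × (Bool × Bool)) × (ℤˣ × Multiplicative (ZMod 2)) :=
  (((decide (x ^ 2 = 1), decide (x ^ 4 = 1)), (decide (x ^ 5 = 1), decide (x ^ 8 = 1))),
    (Equiv.Perm.sign x.1, x.2))

theorem Φ_conj (x y : Am) (h : IsConj x y) : Φ x = Φ y := by
  obtain ⟨c, hc⟩ := isConj_iff.1 h
  subst hc
  have hp : ∀ n, (c * x * c⁻¹) ^ n = 1 ↔ x ^ n = 1 := by
    intro n
    rw [conj_pow]
    constructor
    · intro h
      have : x ^ n = c⁻¹ * (c * x ^ n * c⁻¹) * c := by group
      rw [this, h]; group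
    · intro h; rw [h]; group
  unfold Φ
  simp only [hp]
  refine congrArg₂ Prod.mk rfl (congrArg₂ Prod.mk ?_ ?_)
  · rw [Prod.fst_mul, Prod.fst_mul, map_mul, map_mul, Prod.fst_inv, map_inv]
    rw [mul_comm (Equiv.Perm.sign c.1), mul_assoc, mul_inv_cancel, mul_one]
  · rw [Prod.snd_mul, Prod.snd_mul, Prod.snd_inv]
    rw [mul_comm c.2, mul_assoc, mul_inv_cancel, mul_one]

/-- representatives of the 3-regular classes -/
def e11 : Fin 11 → Fin 10 × Fin 9 × Fin 8 × Fin 2 :=
  ![(0, 0, 1, 0), (2, 0, 1, 0), (0, 0, 1, 1), (1, 0, 0, 0), (0, 0, 0, 1), (0, 0, 0, 0),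
    (2, 0, 1, 1), (3, 0, 1, 0), (4, 0, 0, 1), (4, 0, 0, 0), (9, 8, 0, 0)]

theorem e11_pow : ∀ i, wel (e11 i) ^ 40 = 1 := by decide +kernel
theorem e11_Φ : ∀ i j, Φ (wel (e11 i)) = Φ (wel (e11 j)) → i = j := by decide +kernel

/-- eight classes of 3-regular elements of `PGL(2,9)` -/
def e8 : Fin 8 → Fin 10 × Fin 9 × Fin 8 × Fin 2 :=
  ![(0, 0, 1, 0), (1, 0, 0, 0), (0, 0, 0, 0), (3, 0, 1, 0), (4, 0, 0, 0), (9, 8, 0, 0),
    (9, 8, 1, 0), (9, 8, 3, 0)]

theorem e8_pow : ∀ i, wel (e8 i) ^ 40 = 1 := by decide +kernel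
theorem e8_snd : ∀ i, (wel (e8 i)).2 = Multiplicative.ofAdd 0 := by decide +kernel
theorem e8_Φ : ∀ i j, Φ (wel (e8 i)) = Φ (wel (e8 j)) →
    i = j ∨ (i = 6 ∧ j = 7) ∨ (i = 7 ∧ j = 6) := by decide +kernel

theorem reg_of_pow {G : Type*} [Group G] (x : G) (h : x ^ 40 = 1) : ¬ 3 ∣ orderOf x := by
  intro h3
  have := h3.trans (orderOf_dvd_of_pow_eq_one h)
  norm_num at this

theorem wel_m : wel (9, 8, 1, 0) = m := by decide +kernel
theorem wel_m3 : wel (9, 8, 3, 0) = m ^ 3 := by decide +kernel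
theorem m3_fix : ∀ i : Fin 10, (m ^ 3).1 i = i → i = 8 ∨ i = 9 := by decide +kernel
theorem m_9 : m.1 9 = 9 := by decide +kernel
theorem m_8 : m.1 8 = 8 := by decide +kernel
theorem w_9 : w.1 9 = 8 := by decide +kernel
theorem w_8 : w.1 8 = 9 := by decide +kernel
theorem w_snd : w.2 = 1 := by decide +kernel
theorem ww : w * w = 1 := by decide +kernel
theorem not1 : ∀ a : Fin 8, m ^ a.1 * m ≠ m ^ 3 * m ^ a.1 := by decide +kernel
theorem not2 : ∀ a : Fin 8, w * m ^ a.1 * m ≠ m ^ 3 * (w * m ^ a.1) := by decide +kernel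

/-- `m` and `m³` are not conjugate by elements without field automorphism -/
theorem not_conj (c : Am) (hc : c ∈ A) (h0 : c.2 = Multiplicative.ofAdd 0)
    (h : c * m = m ^ 3 * c) : False := by
  have hp : ∀ i, c.1 (m.1 i) = (m ^ 3).1 (c.1 i) := by
    intro i
    have h' := congrArg (fun y : Am => y.1 i) h
    simp only [Prod.fst_mul, Equiv.Perm.mul_apply] at h'
    exact h'
  have h9 := m3_fix (c.1 9) (by rw [← hp, m_9])
  have h8 := m3_fix (c.1 8) (by rw [← hp, m_8])
  have hne : c.1 9 ≠ c.1 8 := by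
    intro h
    have := c.1.injective h
    exact absurd this (by decide)
  rcases h9 with h9 | h9
  · have h8' : c.1 8 = 9 := by
      rcases h8 with h8 | h8
      · rw [h8] at hne; exact absurd h9 hne
      · exact h8
    obtain ⟨a, ha⟩ := fix2 (w * c) (A.mul_mem w_mem hc)
      (by rw [Prod.fst_mul, Equiv.Perm.mul_apply, h9, w_8])
      (by rw [Prod.fst_mul, Equiv.Perm.mul_apply, h8', w_9])
      (by rw [Prod.snd_mul, w_snd, h0, one_mul])
    have hc' : c = w * m ^ a.1 := by
      rw [← ha, ← mul_assoc, ww, one_mul]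
    rw [hc'] at h
    exact not2 a h
  · have h8' : c.1 8 = 8 := by
      rcases h8 with h8 | h8
      · exact h8
      · rw [h8] at hne; exact absurd h9 hne
    obtain ⟨a, ha⟩ := fix2 c hc h9 h8' h0
    rw [ha] at h
    exact not1 a h

/-- the regularity predicate -/
def R3 (x : A) : Prop := ¬ 3 ∣ orderOf x

theorem R3_conj (g h : A) (hc : IsConj g h) (hr : R3 g) : R3 h := by
  unfold R3 at *
  obtain ⟨c, hc⟩ := isConj_iff.1 hc
  subst hc
  have := orderOf_injective (MulAut.conj c).toMonoidHom (MulAut.conj c).injective g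
  have e : orderOf (c * g * c⁻¹) = orderOf g := this
  rw [e]; exact hr

theorem kn_A : 11 ≤ kn R3 := by
  apply kn_ge R3 (fun i => (⟨wel (e11 i), wel_mem_A _⟩ : A))
  · intro i
    exact reg_of_pow _ (Subtype.ext (e11_pow i))
  · intro i j h
    exact e11_Φ i j (Φ_conj _ _ (A.subtype.map_isConj h))

theorem kn_A0 : 8 ≤ kn (fun x : ε.ker => R3 x.1) := by
  apply kn_ge _ (fun i => (⟨⟨wel (e8 i), wel_mem_A _⟩, e8_snd i⟩ : ε.ker))
  · intro i
    exact reg_of_pow _ (Subtype.ext (e8_pow i))
  · intro i j h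
    have hΦ := e8_Φ i j (Φ_conj _ _ (A.subtype.map_isConj (ε.ker.subtype.map_isConj h)))
    have key : ∀ c : ε.ker, c.1.1 * m = m ^ 3 * c.1.1 → False := fun c hc =>
      not_conj c.1.1 c.1.2 c.2 hc
    rcases hΦ with h' | ⟨rfl, rfl⟩ | ⟨rfl, rfl⟩
    · exact h'
    · exfalso
      obtain ⟨c, hc⟩ := isConj_iff.1 h
      have h1 : c.1.1 * wel (9, 8, 1, 0) * c.1.1⁻¹ = wel (9, 8, 3, 0) :=
        congrArg (fun z : ε.ker => z.1.1) hc
      rw [wel_m, wel_m3] at h1
      apply key c
      rw [← h1]; group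
    · exfalso
      obtain ⟨c, hc⟩ := isConj_iff.1 h.symm
      have h1 : c.1.1 * wel (9, 8, 1, 0) * c.1.1⁻¹ = wel (9, 8, 3, 0) :=
        congrArg (fun z : ε.ker => z.1.1) hc
      rw [wel_m, wel_m3] at h1
      apply key c
      rw [← h1]; group

theorem card_ker_ε : Nat.card ε.ker = 720 := by
  have h1 := card_split ε
  have h2 : Nat.card ε.range = 2 := by
    have hs : Function.Surjective ε := by
      intro u
      obtain ⟨x, hx⟩ := θ_surj (1, u)
      exact ⟨x, congrArg Prod.snd hx⟩
    rw [MonoidHom.range_eq_top.2 hs, Subgroup.card_top]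
    exact (Nat.card_congr Multiplicative.toAdd).trans (Nat.card_zmod 2)
  rw [h2, card_A] at h1
  omega

/-- there are at least 360 classes of 3-regular elements -/
theorem ell_G0 : 360 ≤ ell 3 G0 := by
  have h1 : cpn (fun x => R3 (α x)) (fun _ => True) =
      2048 * cpn R3 (fun _ => True) + 128 * cpn (fun a => R3 a ∧ ε a = 1) (fun a => ε a = 1) :=
    fibre_count α β ε D.η αβ_inj εα αβ_surj 2048 128 D.count_11
      (fun u v h _ _ => D.count_other u v h) R3
  have h2 : cpn (fun x => R3 (α x)) (fun _ => True) = kn (fun x => R3 (α x)) * 92160 := by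
    rw [cpn_eq_kn (fun x => R3 (α x)) (fun g h hc hr => R3_conj _ _ (α.map_isConj hc) hr), card_G0]
  have h3 : cpn R3 (fun _ => True) = kn R3 * 1440 := by
    rw [cpn_eq_kn R3 R3_conj, card_A]
  have h4 : cpn (fun a => R3 a ∧ ε a = 1) (fun a => ε a = 1) =
      kn (fun x : ε.ker => R3 x.1) * 720 := by
    have := cpn_subgroup_R ε.ker R3 R3_conj
    rw [card_ker_ε] at this
    exact this
  have h5 : 360 ≤ kn (fun x : G0 => R3 (α x)) := by
    have a1 := kn_A
    have a2 := kn_A0
    generalize cpn (fun a => R3 a ∧ ε a = 1) (fun a => ε a = 1) = z at h1 h4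
    generalize cpn R3 (fun _ => True) = z' at h1 h3
    generalize cpn (fun x => R3 (α x)) (fun _ => True) = z'' at h1 h2
    omega
  refine h5.trans ?_
  unfold kn ell
  apply Nat.card_le_card_of_injective
    (fun c : {c : ConjClasses G0 // ∃ g, ConjClasses.mk g = c ∧ R3 (α g)} =>
      (⟨c.1, by
        obtain ⟨g, hg, hr⟩ := c.2
        refine ⟨g, hg, ?_⟩
        intro h3
        apply hr
        -- `g ^ (orderOf (α g) * 128) = 1`
        have hp : g ^ (orderOf (α g) * 128) = 1 := by
          apply αβ_inj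
          · rw [map_pow, map_one, pow_mul, pow_orderOf_eq_one, one_pow]
          · rw [map_pow, map_one, mul_comm, pow_mul, ← D.card_D, pow_card_eq_one', one_pow]
        have := h3.trans (orderOf_dvd_of_pow_eq_one hp)
        rcases (Nat.Prime.dvd_mul Nat.prime_three).1 this with h | h
        · exact h
        · norm_num at h⟩ :
        {c : ConjClasses G0 // ∃ g, ConjClasses.mk g = c ∧ ¬ 3 ∣ orderOf g}))
  intro c c' h
  exact Subtype.ext (Subtype.mk.inj h)

/-! ### upper bound -/

theorem kcl_sub (H : Subgroup G0) (hH : ¬ 3 ∣ Nat.card H) : kcl H ≤ 359 := by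
  set f : H →* A := α.comp H.subtype with hf
  have hsplit := card_split f
  have hk := kcl_le f
  have hr3 : ¬ 3 ∣ Nat.card f.range := by
    intro h
    apply hH
    rw [hsplit]
    exact Dvd.dvd.mul_left h _
  have hr1440 : Nat.card f.range ∣ 1440 := card_A ▸ Subgroup.card_subgroup_dvd_card f.range
  have hr160 : Nat.card f.range ∣ 160 := by
    have hcop : Nat.Coprime (Nat.card f.range) 9 := by
      have : Nat.Coprime (Nat.card f.range) 3 :=
        (Nat.coprime_comm.1 ((Nat.Prime.coprime_iff_not_dvd Nat.prime_three).2 hr3))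
      exact Nat.Coprime.pow_right 2 this
    have h9 : Nat.card f.range ∣ 9 * 160 := hr1440
    exact hcop.dvd_of_dvd_mul_left h9
  -- the kernel
  have hβ : ∀ n : f.ker, β n.1.1 ∈ D.η.ker := by
    intro n
    rw [MonoidHom.mem_ker, ← εα]
    have : α n.1.1 = 1 := (MonoidHom.mem_ker).1 n.2
    rw [this, map_one]
  let γ : f.ker →* D.η.ker :=
    { toFun := fun n => ⟨β n.1.1, hβ n⟩
      map_one' := rfl
      map_mul' := fun _ _ => rfl }
  have hγ : Function.Injective γ := by
    intro n n' h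
    have h' : β n.1.1 = β n'.1.1 := congrArg Subtype.val h
    have e1 : α n.1.1 = 1 := (MonoidHom.mem_ker).1 n.2
    have e2 : α n'.1.1 = 1 := (MonoidHom.mem_ker).1 n'.2
    exact Subtype.ext (Subtype.ext (αβ_inj _ _ (e1.trans e2.symm) h'))
  have hkle : Nat.card f.ker ≤ 64 := by
    rw [← card_T]
    exact Nat.card_le_card_of_injective γ hγ
  have hkdvd : Nat.card f.ker ∣ 64 := by
    rw [← card_T]
    exact Subgroup.card_dvd_of_injective γ hγ
  have hker : (Nat.card f.ker = 64 ∧ kcl f.ker = 34) ∨ kcl f.ker ≤ 32 := by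
    by_cases h64 : Nat.card f.ker = 64
    · left
      refine ⟨h64, ?_⟩
      rw [← kcl_T]
      have hb : Function.Bijective γ := by
        have := Fintype.ofFinite f.ker
        have := Fintype.ofFinite D.η.ker
        rw [Fintype.bijective_iff_injective_and_card]
        refine ⟨hγ, ?_⟩
        rw [← Nat.card_eq_fintype_card, ← Nat.card_eq_fintype_card, h64, card_T]
      exact kcl_congr (MulEquiv.ofBijective γ hb)
    · right
      have h1 := kcl_le_card f.ker
      have h2 : Nat.card f.ker ≤ 32 := by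
        generalize Nat.card f.ker = z at hkdvd h64 hkle
        obtain ⟨k, hk, rfl⟩ := (Nat.dvd_prime_pow Nat.prime_two).1
          (show z ∣ 2 ^ 6 from hkdvd)
        have : k ≠ 6 := by rintro rfl; exact h64 (by norm_num)
        have hk5 : k ≤ 5 := by omega
        calc 2 ^ k ≤ 2 ^ 5 := Nat.pow_le_pow_right (by norm_num) hk5
          _ = 32 := by norm_num
      omega
  have hk34 : kcl f.ker ≤ 34 := by
    rcases hker with h | h
    · omega
    · omega
  -- the image
  have hrange : kcl f.range ≤ 10 ∨ (Nat.card f.range = 32 ∧ kcl f.range ≤ 11 ∧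
      cpn (fun x => x ∈ f.range ∧ ε x = 1) (fun x => x ∈ f.range ∧ ε x = 1) = 112) := by
    by_cases h5 : 5 ∣ Nat.card f.range
    · left; exact five_bound f.range hr160 h5
    · apply two_bound
      have hcop : Nat.Coprime (Nat.card f.range) 5 :=
        Nat.coprime_comm.1 ((Nat.Prime.coprime_iff_not_dvd Nat.prime_five).2 h5)
      have h9 : Nat.card f.range ∣ 5 * 32 := hr160
      exact hcop.dvd_of_dvd_mul_left h9
  rcases hrange with h10 | ⟨h32, h11, h112⟩
  · calc kcl H ≤ kcl f.ker * kcl f.range := hk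
      _ ≤ 34 * 10 := Nat.mul_le_mul hk34 h10
      _ ≤ 359 := by norm_num
  · rcases hker with ⟨h64, _⟩ | hk32
    · -- the full fibre product
      have hγs : Function.Surjective γ := by
        have := Fintype.ofFinite f.ker
        have := Fintype.ofFinite D.η.ker
        have hb : Function.Bijective γ := by
          rw [Fintype.bijective_iff_injective_and_card]
          refine ⟨hγ, ?_⟩
          rw [← Nat.card_eq_fintype_card, ← Nat.card_eq_fintype_card, h64, card_T]
        exact hb.2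
      have h1 := fibre_count (H := H) (A := f.range) (D := D) f.rangeRestrict
        (β.comp H.subtype) (ε.comp f.range.subtype) D.η
        (by
          intro x y h1 h2
          apply Subtype.ext
          exact αβ_inj _ _ (congrArg Subtype.val h1) h2)
        (by intro x; rfl)
        (by
          rintro ⟨a, x, rfl⟩ d hd
          have hd' : ε (f x) = D.η d := hd
          have hx : ε (f x) = D.η (β x.1) := εα x.1
          have hmem : d * (β x.1)⁻¹ ∈ D.η.ker := by
            rw [MonoidHom.mem_ker, map_mul, map_inv, ← hx, ← hd', mul_inv_cancel]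
          obtain ⟨n, hn⟩ := hγs ⟨_, hmem⟩
          have hn' : β n.1.1 = d * (β x.1)⁻¹ := congrArg Subtype.val hn
          refine ⟨n.1 * x, ?_, ?_⟩
          · apply Subtype.ext
            change f (n.1 * x) = f x
            rw [map_mul, (MonoidHom.mem_ker).1 n.2, one_mul]
          · change β (n.1.1 * x.1) = d
            rw [map_mul, hn', inv_mul_cancel_right])
        2048 128 D.count_11 (fun u v h _ _ => D.count_other u v h) (fun _ => True)
      rw [cpn_true, cpn_true, hsplit, h64, h32] at h1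
      have h2 : cpn (fun a : f.range => True ∧ (ε.comp f.range.subtype) a = 1)
          (fun a : f.range => (ε.comp f.range.subtype) a = 1) = 112 := by
        rw [← h112]
        have : cpn (fun a : f.range => True ∧ (ε.comp f.range.subtype) a = 1)
          (fun a : f.range => (ε.comp f.range.subtype) a = 1) =
          cpn (fun a : f.range => (ε.comp f.range.subtype) a = 1)
          (fun a : f.range => (ε.comp f.range.subtype) a = 1) := by
          simp only [true_and]
        rw [this]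
        apply cpn_map f.range.subtype f.range.subtype_injective
        · intro x hx
          exact ⟨x.2, hx⟩
        · rintro k ⟨hk1, hk2⟩
          exact ⟨⟨k, hk1⟩, hk2, rfl⟩
      rw [h2] at h1
      omega
    · calc kcl H ≤ kcl f.ker * kcl f.range := hk
        _ ≤ 32 * 11 := Nat.mul_le_mul hk32 h11
        _ ≤ 359 := by norm_num

end Pool.Agent.V1115.KL
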