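import Pool.Agent.V1115.KL.Count

/-!
# The group `PΓL(2,9)`

A concrete model of `PΓL(2,9)` inside `Perm (Fin 10) × C_2`, the second entry recording the field
automorphism.  The points are labelled by `j ↦ ω^j` for `j < 8`, `8 ↦ 0`, `9 ↦ ∞`.
-/

namespace Pool.Agent.V1115.KL

/-- the ambient group -/
abbrev Am : Type := Equiv.Perm (Fin 10) × Multiplicative (ZMod 2)

/-- translation by `1` -/
def tp : Equiv.Perm (Fin 10) :=
  ⟨![4, 7, 3, 5, 8, 2, 1, 6, 0, 9], ![8, 6, 5, 2, 0, 3, 7, 1, 4, 9], by decide, by decide⟩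
/-- multiplication by `ω` -/
def mp : Equiv.Perm (Fin 10) :=
  ⟨![1, 2, 3, 4, 5, 6, 7, 0, 8, 9], ![7, 0, 1, 2, 3, 4, 5, 6, 8, 9], by decide, by decide⟩
/-- inversion -/
def wp : Equiv.Perm (Fin 10) :=
  ⟨![0, 7, 6, 5, 4, 3, 2, 1, 9, 8], ![0, 7, 6, 5, 4, 3, 2, 1, 9, 8], by decide, by decide⟩
/-- the Frobenius map -/
def fp : Equiv.Perm (Fin 10) :=
  ⟨![0, 3, 6, 1, 4, 7, 2, 5, 8, 9], ![0, 3, 6, 1, 4, 7, 2, 5, 8, 9], by decide, by decide⟩

def t : Am := (tp, Multiplicative.ofAdd 0)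
def m : Am := (mp, Multiplicative.ofAdd 0)
def w : Am := (wp, Multiplicative.ofAdd 0)
def f : Am := (fp, Multiplicative.ofAdd 1)

/-- translations -/
def T (j : Fin 9) : Am := if j.1 < 8 then m ^ j.1 * t * m ^ (8 - j.1) else 1
/-- coset representatives of the stabiliser of `∞` -/
def U (i : Fin 10) : Am := if h : i.1 < 9 then T ⟨i.1, h⟩ * w else 1

/-- the group `PΓL(2,9)` -/
def A : Subgroup Am := Subgroup.closure {t, m, f, w}
/-- the group `AΓL(1,9)` -/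
def A1 : Subgroup Am := Subgroup.closure {t, m, f}
/-- the point stabiliser in `AΓL(1,9)` -/
def A2 : Subgroup Am := Subgroup.closure {m, f}

theorem chain {G : Type*} [Group G] {S : Set G} {H : Subgroup G} {ι : Type*} (u : ι → G)
    (i0 : ι) (hu : u i0 = 1)
    (hS : ∀ g ∈ S, ∀ i, ∃ i', (u i')⁻¹ * (g * u i) ∈ H)
    (hS' : ∀ g ∈ S, ∀ i, ∃ i', (u i')⁻¹ * (g⁻¹ * u i) ∈ H) :
    ∀ x ∈ Subgroup.closure S, ∃ i, (u i)⁻¹ * x ∈ H := by
  intro x hx
  induction hx using Subgroup.closure_induction_left with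
  | one => exact ⟨i0, by rw [hu]; simp [H.one_mem]⟩
  | mul_left g hg y _ ih =>
    obtain ⟨i, hi⟩ := ih
    obtain ⟨i', hi'⟩ := hS g hg i
    refine ⟨i', ?_⟩
    have := H.mul_mem hi' hi
    have e : (u i')⁻¹ * (g * u i) * ((u i)⁻¹ * y) = (u i')⁻¹ * (g * y) := by group
    rwa [e] at this
  | inv_mul_cancel g hg y _ ih =>
    obtain ⟨i, hi⟩ := ih
    obtain ⟨i', hi'⟩ := hS' g hg i
    refine ⟨i', ?_⟩
    have := H.mul_mem hi' hi
    have e : (u i')⁻¹ * (g⁻¹ * u i) * ((u i)⁻¹ * y) = (u i')⁻¹ * (g⁻¹ * y) := by group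
    rwa [e] at this

theorem m_mem2 : m ∈ A2 := Subgroup.subset_closure (by simp)
theorem f_mem2 : f ∈ A2 := Subgroup.subset_closure (by simp)
theorem A2_le : A2 ≤ A1 := Subgroup.closure_mono (by
  intro x hx
  simp only [Set.mem_insert_iff, Set.mem_singleton_iff] at hx ⊢; tauto)
theorem A1_le : A1 ≤ A := Subgroup.closure_mono (by
  intro x hx
  simp only [Set.mem_insert_iff, Set.mem_singleton_iff] at hx ⊢; tauto)
theorem t_mem1 : t ∈ A1 := Subgroup.subset_closure (by simp)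
theorem w_mem : w ∈ A := Subgroup.subset_closure (by simp)
theorem T_mem (j : Fin 9) : T j ∈ A1 := by
  unfold T
  split_ifs
  · exact A1.mul_mem (A1.mul_mem (A1.pow_mem (A2_le m_mem2) _) t_mem1)
      (A1.pow_mem (A2_le m_mem2) _)
  · exact A1.one_mem
theorem U_mem (j : Fin 10) : U j ∈ A := by
  unfold U
  split_ifs
  · exact A.mul_mem (A1_le (T_mem _)) w_mem
  · exact A.one_mem

theorem m8 : m ^ 8 = 1 := by decide +kernel
theorem f2 : f * f = 1 := by decide +kernel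
theorem fm : f * m = m ^ 3 * f := by decide +kernel

theorem mem_A2 (x : Am) (hx : x ∈ A2) : ∃ a : Fin 8, ∃ b : Fin 2, x = m ^ a.1 * f ^ b.1 := by
  have hS : ∀ g ∈ ({m, f} : Set Am), ∀ i : Fin 8 × Fin 2, ∃ i' : Fin 8 × Fin 2,
      (m ^ i'.1.1 * f ^ i'.2.1)⁻¹ * (g * (m ^ i.1.1 * f ^ i.2.1)) ∈ (⊥ : Subgroup Am) := by
    intro g hg i
    simp only [Subgroup.mem_bot, inv_mul_eq_one]
    rcases hg with rfl | hg
    · revert i; decide +kernel
    · rw [Set.mem_singleton_iff] at hg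
      subst hg
      revert i; decide +kernel
  have hS' : ∀ g ∈ ({m, f} : Set Am), ∀ i : Fin 8 × Fin 2, ∃ i' : Fin 8 × Fin 2,
      (m ^ i'.1.1 * f ^ i'.2.1)⁻¹ * (g⁻¹ * (m ^ i.1.1 * f ^ i.2.1)) ∈ (⊥ : Subgroup Am) := by
    intro g hg i
    simp only [Subgroup.mem_bot, inv_mul_eq_one]
    rcases hg with rfl | hg
    · revert i; decide +kernel
    · rw [Set.mem_singleton_iff] at hg
      subst hg
      revert i; decide +kernel
  obtain ⟨i, hi⟩ := chain (fun i : Fin 8 × Fin 2 => m ^ i.1.1 * f ^ i.2.1) (0, 0) (by simp)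
    hS hS' x hx
  rw [Subgroup.mem_bot, inv_mul_eq_one] at hi
  exact ⟨i.1, i.2, hi.symm⟩

theorem mf_mem (a b : ℕ) : m ^ a * f ^ b ∈ A2 :=
  A2.mul_mem (A2.pow_mem m_mem2 _) (A2.pow_mem f_mem2 _)

def w2t : Fin 9 → Fin 9 := ![4, 7, 3, 5, 8, 2, 1, 6, 0]
def w2t' : Fin 9 → Fin 9 := ![8, 6, 5, 2, 0, 3, 7, 1, 4]
def w2m : Fin 9 → Fin 9 := ![1, 2, 3, 4, 5, 6, 7, 0, 8]
def w2m' : Fin 9 → Fin 9 := ![7, 0, 1, 2, 3, 4, 5, 6, 8]
def w2f : Fin 9 → Fin 9 := ![0, 3, 6, 1, 4, 7, 2, 5, 8]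

theorem h2t : ∀ j, t * T j = T (w2t j) := by decide +kernel
theorem h2t' : ∀ j, t⁻¹ * T j = T (w2t' j) := by decide +kernel
theorem h2m : ∀ j, m * T j = T (w2m j) * m := by decide +kernel
theorem h2m' : ∀ j, m⁻¹ * T j = T (w2m' j) * m⁻¹ := by decide +kernel
theorem h2f : ∀ j, f * T j = T (w2f j) * f := by decide +kernel
theorem finv : f⁻¹ = f := by decide +kernel
theorem winv : w⁻¹ = w := by decide +kernel

theorem mem_A1 (x : Am) (hx : x ∈ A1) : ∃ j : Fin 9, (T j)⁻¹ * x ∈ A2 := by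
  apply chain T 8 (by decide +kernel) _ _ x hx
  · intro g hg i
    rcases hg with rfl | rfl | hg
    · exact ⟨w2t i, by rw [h2t]; simp [A2.one_mem]⟩
    · exact ⟨w2m i, by rw [h2m, inv_mul_cancel_left]; exact m_mem2⟩
    · rw [Set.mem_singleton_iff] at hg; subst hg
      exact ⟨w2f i, by rw [h2f, inv_mul_cancel_left]; exact f_mem2⟩
  · intro g hg i
    rcases hg with rfl | rfl | hg
    · exact ⟨w2t' i, by rw [h2t']; simp [A2.one_mem]⟩
    · exact ⟨w2m' i, by rw [h2m', inv_mul_cancel_left]; exact A2.inv_mem m_mem2⟩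
    · rw [Set.mem_singleton_iff] at hg; subst hg
      exact ⟨w2f i, by rw [finv, h2f, inv_mul_cancel_left]; exact f_mem2⟩

/-- witnesses for `g * U i = U i' * (T j * m ^ a * f ^ b)` -/
def w1t : Fin 10 → Fin 10 × Fin 9 × Fin 8 × Fin 2 :=
  ![(4, 8, 0, 0), (7, 8, 0, 0), (3, 8, 0, 0), (5, 8, 0, 0), (8, 8, 0, 0), (2, 8, 0, 0),
    (1, 8, 0, 0), (6, 8, 0, 0), (0, 8, 0, 0), (9, 0, 0, 0)]
def w1t' : Fin 10 → Fin 10 × Fin 9 × Fin 8 × Fin 2 :=
  ![(8, 8, 0, 0), (6, 8, 0, 0), (5, 8, 0, 0), (2, 8, 0, 0), (0, 8, 0, 0), (3, 8, 0, 0),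
    (7, 8, 0, 0), (1, 8, 0, 0), (4, 8, 0, 0), (9, 4, 0, 0)]
def w1m : Fin 10 → Fin 10 × Fin 9 × Fin 8 × Fin 2 :=
  ![(1, 8, 7, 0), (2, 8, 7, 0), (3, 8, 7, 0), (4, 8, 7, 0), (5, 8, 7, 0), (6, 8, 7, 0),
    (7, 8, 7, 0), (0, 8, 7, 0), (8, 8, 7, 0), (9, 8, 1, 0)]
def w1m' : Fin 10 → Fin 10 × Fin 9 × Fin 8 × Fin 2 :=
  ![(7, 8, 1, 0), (0, 8, 1, 0), (1, 8, 1, 0), (2, 8, 1, 0), (3, 8, 1, 0), (4, 8, 1, 0),
    (5, 8, 1, 0), (6, 8, 1, 0), (8, 8, 1, 0), (9, 8, 7, 0)]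
def w1f : Fin 10 → Fin 10 × Fin 9 × Fin 8 × Fin 2 :=
  ![(0, 8, 0, 1), (3, 8, 0, 1), (6, 8, 0, 1), (1, 8, 0, 1), (4, 8, 0, 1), (7, 8, 0, 1),
    (2, 8, 0, 1), (5, 8, 0, 1), (8, 8, 0, 1), (9, 8, 0, 1)]
def w1w : Fin 10 → Fin 10 × Fin 9 × Fin 8 × Fin 2 :=
  ![(0, 4, 4, 0), (7, 5, 6, 0), (6, 6, 0, 0), (5, 7, 2, 0), (4, 0, 4, 0), (3, 1, 6, 0),
    (2, 2, 0, 0), (1, 3, 2, 0), (9, 8, 0, 0), (8, 8, 0, 0)]

/-- the element with given witness -/
def wel (q : Fin 10 × Fin 9 × Fin 8 × Fin 2) : Am :=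
  U q.1 * (T q.2.1 * (m ^ q.2.2.1.1 * f ^ q.2.2.2.1))

theorem h1t : ∀ j, t * U j = wel (w1t j) := by decide +kernel
theorem h1t' : ∀ j, t⁻¹ * U j = wel (w1t' j) := by decide +kernel
theorem h1m : ∀ j, m * U j = wel (w1m j) := by decide +kernel
theorem h1m' : ∀ j, m⁻¹ * U j = wel (w1m' j) := by decide +kernel
theorem h1f : ∀ j, f * U j = wel (w1f j) := by decide +kernel
theorem h1w : ∀ j, w * U j = wel (w1w j) := by decide +kernel

theorem wel_mem (q) : (U q.1)⁻¹ * wel q ∈ A1 := by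
  unfold wel
  rw [inv_mul_cancel_left]
  exact A1.mul_mem (T_mem _) (A2_le (mf_mem _ _))

theorem mem_A (x : Am) (hx : x ∈ A) : ∃ j : Fin 10, (U j)⁻¹ * x ∈ A1 := by
  apply chain U 9 (by decide +kernel) _ _ x hx
  · intro g hg i
    rcases hg with rfl | rfl | rfl | hg
    · exact ⟨(w1t i).1, by rw [h1t]; exact wel_mem _⟩
    · exact ⟨(w1m i).1, by rw [h1m]; exact wel_mem _⟩
    · exact ⟨(w1f i).1, by rw [h1f]; exact wel_mem _⟩
    · rw [Set.mem_singleton_iff] at hg; subst hg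
      exact ⟨(w1w i).1, by rw [h1w]; exact wel_mem _⟩
  · intro g hg i
    rcases hg with rfl | rfl | rfl | hg
    · exact ⟨(w1t' i).1, by rw [h1t']; exact wel_mem _⟩
    · exact ⟨(w1m' i).1, by rw [h1m']; exact wel_mem _⟩
    · exact ⟨(w1f i).1, by rw [finv, h1f]; exact wel_mem _⟩
    · rw [Set.mem_singleton_iff] at hg; subst hg
      exact ⟨(w1w i).1, by rw [winv, h1w]; exact wel_mem _⟩

/-- every element of `A` has a normal form -/
theorem normal_form (x : Am) (hx : x ∈ A) : ∃ q, x = wel q := by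
  obtain ⟨i, hi⟩ := mem_A x hx
  obtain ⟨j, hj⟩ := mem_A1 _ hi
  obtain ⟨a, b, hab⟩ := mem_A2 _ hj
  refine ⟨(i, j, a, b), ?_⟩
  unfold wel
  simp only
  rw [← hab]; group

theorem wel_mem_A (q) : wel q ∈ A :=
  A.mul_mem (U_mem _) (A1_le (A1.mul_mem (T_mem _) (A2_le (mf_mem _ _))))

theorem U9 : ∀ i : Fin 10, (U i).1 9 = i := by decide +kernel
theorem T9 : ∀ i : Fin 9, (T i).1 9 = 9 := by decide +kernel
theorem T8 : ∀ i : Fin 9, (T i).1 8 = ⟨i.1, by omega⟩ := by decide +kernel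
theorem mf9 : ∀ (a : Fin 8) (b : Fin 2), (m ^ a.1 * f ^ b.1).1 9 = 9 := by decide +kernel
theorem mf8 : ∀ (a : Fin 8) (b : Fin 2), (m ^ a.1 * f ^ b.1).1 8 = 8 := by decide +kernel
theorem mf0 : ∀ (a : Fin 8) (b : Fin 2), (m ^ a.1 * f ^ b.1).1 0 = ⟨a.1, by omega⟩ := by
  decide +kernel
theorem mfs : ∀ (a : Fin 8) (b : Fin 2), (m ^ a.1 * f ^ b.1).2 =
    Multiplicative.ofAdd (b.1 : ZMod 2) := by decide +kernel

theorem wel9 (q) : (wel q).1 9 = q.1 := by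
  unfold wel
  rw [Prod.fst_mul, Equiv.Perm.mul_apply, Prod.fst_mul, Equiv.Perm.mul_apply, mf9, T9, U9]

theorem wel_inj : Function.Injective wel := by
  rintro ⟨i, j, a, b⟩ ⟨i', j', a', b'⟩ h
  have hi : i = i' := by
    have := congrArg (fun x : Am => x.1 9) h
    simp only [wel9] at this
    exact this
  subst hi
  have h2 : T j * (m ^ a.1 * f ^ b.1) = T j' * (m ^ a'.1 * f ^ b'.1) := by
    unfold wel at h
    exact mul_left_cancel h
  have hj : j = j' := by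
    have := congrArg (fun x : Am => x.1 8) h2
    simp only [Prod.fst_mul, Equiv.Perm.mul_apply] at this
    have e1 := mf8 a b
    have e2 := mf8 a' b'
    simp only [Prod.fst_mul, Equiv.Perm.mul_apply] at e1 e2
    rw [e1, e2, T8, T8, Fin.mk.injEq] at this
    exact Fin.ext this
  subst hj
  have h3 := mul_left_cancel h2
  have ha : a = a' := by
    have := congrArg (fun x : Am => x.1 0) h3
    simp only [mf0, Fin.mk.injEq] at this
    exact Fin.ext this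
  subst ha
  have h4 := mul_left_cancel h3
  have hb : b = b' := by
    have key : ∀ b b' : Fin 2, f ^ b.1 = f ^ b'.1 → b = b' := by decide +kernel
    exact key _ _ h4
  subst hb
  rfl

theorem card_A : Nat.card A = 1440 := by
  have e : Nat.card (Fin 10 × Fin 9 × Fin 8 × Fin 2) = Nat.card A := by
    apply Nat.card_congr
    refine Equiv.ofBijective (fun q => ⟨wel q, wel_mem_A q⟩) ⟨?_, ?_⟩
    · intro q q' h
      exact wel_inj (congrArg Subtype.val h)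
    · rintro ⟨x, hx⟩
      obtain ⟨q, hq⟩ := normal_form x hx
      exact ⟨q, Subtype.ext hq.symm⟩
  rw [← e]
  simp

/-- an element of `A` fixing `∞`, `0`, `1` is a power of the Frobenius map -/
theorem fix3 (x : Am) (hx : x ∈ A) (h9 : x.1 9 = 9) (h8 : x.1 8 = 8) (h0 : x.1 0 = 0) :
    x = 1 ∨ x = f := by
  obtain ⟨⟨i, j, a, b⟩, rfl⟩ := normal_form x hx
  rw [wel9] at h9
  subst h9
  clear hx
  revert h8 h0; revert j a b
  decide +kernel

/-- an element of `A` fixing `∞`, `0` and with trivial field automorphism is a power of `m` -/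
theorem fix2 (x : Am) (hx : x ∈ A) (h9 : x.1 9 = 9) (h8 : x.1 8 = 8)
    (h0 : x.2 = Multiplicative.ofAdd 0) : ∃ a : Fin 8, x = m ^ a.1 := by
  obtain ⟨⟨i, j, a, b⟩, rfl⟩ := normal_form x hx
  rw [wel9] at h9
  subst h9
  clear hx
  revert h8 h0; revert j a b
  decide +kernel

end Pool.Agent.V1115.KL
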