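import Pool.Agent.V1115.KL.Main

/-!
# Direct powers of the counterexample
-/

namespace Pool.Agent.V1115.KL

/-- at least `L` classes of 3-regular elements, and all subgroups of order prime to 3 have at most
`M` classes -/
def Good (L M : ℕ) (G : Type) [Group G] : Prop :=
  L ≤ ell 3 G ∧ ∀ H : Subgroup G, ¬ 3 ∣ Nat.card H → kcl H ≤ M

theorem good_G0 : Good 360 359 G0 := ⟨ell_G0, kcl_sub⟩

theorem ell_prod (G G' : Type) [Group G] [Group G'] [Finite G] [Finite G'] :
    ell 3 G * ell 3 G' ≤ ell 3 (G × G') := by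
  unfold ell
  rw [← Nat.card_prod]
  have h : ∀ (K : Type) [Group K], ∀ c : {c : ConjClasses K // ∃ g, ConjClasses.mk g = c ∧
      ¬ 3 ∣ orderOf g}, ∃ g, ConjClasses.mk g = c.1 ∧ ¬ 3 ∣ orderOf g := fun K _ c => c.2
  choose r hr using h G
  choose r' hr' using h G'
  apply Nat.card_le_card_of_injective
    (fun q : {c : ConjClasses G // ∃ g, ConjClasses.mk g = c ∧ ¬ 3 ∣ orderOf g} ×
        {c : ConjClasses G' // ∃ g, ConjClasses.mk g = c ∧ ¬ 3 ∣ orderOf g} =>
      (⟨ConjClasses.mk (r q.1, r' q.2), (r q.1, r' q.2), rfl, by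
        rw [Prod.orderOf]
        intro h3
        rcases (Nat.Prime.dvd_mul Nat.prime_three).1
          (h3.trans (Nat.lcm_dvd_mul _ _)) with h | h
        · exact (hr q.1).2 h
        · exact (hr' q.2).2 h⟩ :
        {c : ConjClasses (G × G') // ∃ g, ConjClasses.mk g = c ∧ ¬ 3 ∣ orderOf g}))
  intro q s h
  have h' := ConjClasses.mk_eq_mk_iff_isConj.1 (Subtype.mk.inj h)
  have h1 := ConjClasses.mk_eq_mk_iff_isConj.2 ((MonoidHom.fst G G').map_isConj h')
  have h2 := ConjClasses.mk_eq_mk_iff_isConj.2 ((MonoidHom.snd G G').map_isConj h')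
  have e1 : ConjClasses.mk (r q.1) = ConjClasses.mk (r s.1) := h1
  have e2 : ConjClasses.mk (r' q.2) = ConjClasses.mk (r' s.2) := h2
  rw [(hr q.1).1, (hr s.1).1] at e1
  rw [(hr' q.2).1, (hr' s.2).1] at e2
  exact Prod.ext (Subtype.ext e1) (Subtype.ext e2)

theorem kcl_prod (G G' : Type) [Group G] [Group G'] [Finite G] [Finite G'] (M M' : ℕ)
    (h : ∀ H : Subgroup G, ¬ 3 ∣ Nat.card H → kcl H ≤ M)
    (h' : ∀ H : Subgroup G', ¬ 3 ∣ Nat.card H → kcl H ≤ M')
    (H : Subgroup (G × G')) (hH : ¬ 3 ∣ Nat.card H) : kcl H ≤ M * M' := by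
  set f : H →* G := (MonoidHom.fst G G').comp H.subtype with hf
  have hsplit := card_split f
  have hk := kcl_le f
  have h1 : kcl f.range ≤ M := by
    apply h
    intro h3
    exact hH (hsplit ▸ Dvd.dvd.mul_left h3 _)
  have h2 : kcl f.ker ≤ M' := by
    let γ : f.ker →* G' := ((MonoidHom.snd G G').comp H.subtype).comp f.ker.subtype
    have hγ : Function.Injective γ := by
      intro x y hxy
      have e1 : x.1.1.1 = 1 := (MonoidHom.mem_ker).1 x.2
      have e2 : y.1.1.1 = 1 := (MonoidHom.mem_ker).1 y.2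
      exact Subtype.ext (Subtype.ext (Prod.ext (e1.trans e2.symm) hxy))
    have e : f.ker ≃* γ.range := MonoidHom.ofInjective hγ
    rw [kcl_congr e]
    apply h'
    intro h3
    rw [← Nat.card_congr e.toEquiv] at h3
    exact hH (hsplit ▸ Dvd.dvd.mul_right h3 _)
  calc kcl H ≤ kcl f.ker * kcl f.range := hk
    _ ≤ M' * M := Nat.mul_le_mul h2 h1
    _ = M * M' := mul_comm _ _

theorem good_pow (n : ℕ) : ∃ (G : Type) (_ : Group G) (_ : Finite G),
    Good (360 ^ n) (359 ^ n) G := by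
  induction n with
  | zero =>
    refine ⟨Unit, inferInstance, inferInstance, ?_, ?_⟩
    · rw [pow_zero]
      unfold ell
      rw [Nat.one_le_iff_ne_zero, ← Nat.pos_iff_ne_zero]
      have : Nonempty {c : ConjClasses Unit // ∃ g : Unit, ConjClasses.mk g = c ∧
          ¬ 3 ∣ orderOf g} := ⟨⟨ConjClasses.mk 1, 1, rfl, reg_of_pow _ (Subsingleton.elim _ _)⟩⟩
      exact Nat.card_pos
    · intro H _
      refine (kcl_le_card H).trans ?_
      rw [pow_zero, Nat.card_unique]
  | succ n ih =>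
    obtain ⟨G, _, _, h1, h2⟩ := ih
    refine ⟨G × G0, inferInstance, inferInstance, ?_, ?_⟩
    · rw [pow_succ]
      exact (Nat.mul_le_mul h1 ell_G0).trans (ell_prod G G0)
    · rw [pow_succ]
      exact kcl_prod G G0 _ _ h2 kcl_sub

/-- the ratio is unbounded -/
theorem unbounded (C : ℕ) : ∃ (G : Type) (_ : Group G) (_ : Finite G),
    ∀ H : Subgroup G, ¬ 3 ∣ Nat.card H → C * kcl H < ell 3 G := by
  have hlim : ∃ n : ℕ, (C : ℝ) < (360 / 359 : ℝ) ^ n :=
    pow_unbounded_of_one_lt _ (by norm_num)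
  obtain ⟨n, hn⟩ := hlim
  have hn' : C * 359 ^ n < 360 ^ n := by
    rw [div_pow, lt_div_iff₀ (by positivity)] at hn
    exact_mod_cast hn
  obtain ⟨G, i1, i2, h1, h2⟩ := good_pow n
  refine ⟨G, i1, i2, fun H hH => ?_⟩
  calc C * kcl H ≤ C * 359 ^ n := Nat.mul_le_mul_left _ (h2 H hH)
    _ < 360 ^ n := hn'
    _ ≤ ell 3 G := h1

end Pool.Agent.V1115.KL
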