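import Pool.Agent.V1115.KL.Syl

/-!
# 2-subgroups of `PΓL(2,9)`
-/

namespace Pool.Agent.V1115.KL

open Finset

/-- the field automorphism part -/
def ε : A →* Multiplicative (ZMod 2) := (MonoidHom.snd _ _).comp A.subtype

/-- transport of commuting pair counts -/
theorem cpn_map {G K : Type*} [Group G] [Group K] (φ : G →* K) (hφ : Function.Injective φ)
    (P : G → Prop) (P' : K → Prop) (h1 : ∀ g, P g → P' (φ g))
    (h2 : ∀ k, P' k → ∃ g, P g ∧ φ g = k) : cpn P P = cpn P' P' := by
  unfold cpn
  apply Nat.card_congr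
  refine Equiv.ofBijective (fun p => ⟨(φ p.1.1, φ p.1.2), p.2.1.map φ, h1 _ p.2.2.1,
    h1 _ p.2.2.2⟩) ⟨?_, ?_⟩
  · intro p q h
    have h' := congrArg Subtype.val h
    simp only [Prod.mk.injEq] at h'
    exact Subtype.ext (Prod.ext (hφ h'.1) (hφ h'.2))
  · rintro ⟨⟨k, l⟩, hc, hk, hl⟩
    obtain ⟨g, hg, rfl⟩ := h2 k hk
    obtain ⟨g', hg', rfl⟩ := h2 l hl
    refine ⟨⟨(g, g'), ?_, hg, hg'⟩, rfl⟩
    apply hφ
    rw [map_mul, map_mul]; exact hc.eq

/-- a nonabelian group of order 16 has at most 10 classes -/
theorem kcl_16 (C : Type*) [Group C] [Finite C] (h : Nat.card C = 16)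
    (hn : ¬ ∀ x y : C, x * y = y * x) : kcl C ≤ 10 := by
  classical
  have := Fintype.ofFinite C
  have hZ : Nat.card (Subgroup.center C) ≤ 4 := by
    have hd : Nat.card (Subgroup.center C) ∣ 16 := h ▸ Subgroup.card_subgroup_dvd_card _
    have hq : Nat.card (C ⧸ Subgroup.center C) * Nat.card (Subgroup.center C) = 16 := by
      rw [← h]; exact (Subgroup.card_eq_card_quotient_mul_card_subgroup _).symm
    by_contra hlt
    push Not at hlt
    have h8 : Nat.card (Subgroup.center C) = 8 ∨ Nat.card (Subgroup.center C) = 16 := by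
      have hle : Nat.card (Subgroup.center C) ≤ 16 := Nat.le_of_dvd (by norm_num) hd
      generalize Nat.card (Subgroup.center C) = z at hd hlt hle
      interval_cases z <;> simp_all
    apply hn
    have hcyc : IsCyclic (C ⧸ Subgroup.center C) := by
      rcases h8 with h8 | h8
      · rw [h8] at hq
        have h2 : Nat.card (C ⧸ Subgroup.center C) = 2 := by omega
        have : Fact (Nat.Prime 2) := ⟨Nat.prime_two⟩
        exact isCyclic_of_prime_card h2
      · rw [h8] at hq
        have h1 : Nat.card (C ⧸ Subgroup.center C) = 1 := by omega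
        have := (Nat.card_eq_one_iff_unique.1 h1).1
        infer_instance
    intro x y
    exact commutative_of_cyclic_center_quotient (QuotientGroup.mk' (Subgroup.center C))
      (by simp) x y
  have h1 : cpn (fun _ : C => True) (fun _ => True) = kcl C * 16 := by rw [cpn_true, h]
  have h2 : cpn (fun _ : C => True) (fun _ => True) =
      ∑ x : C, ((univ : Finset C).filter (fun y => Commute x y)).card := by
    rw [cpn_eq_card, ← Finset.card_sigma]
    refine Finset.card_bij' (fun p _ => (⟨p.1, p.2⟩ : (_ : C) × C)) (fun q _ => (q.1, q.2))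
      ?_ ?_ ?_ ?_
    · intro p hp
      simp only [Finset.mem_filter, Finset.mem_univ, true_and, Finset.mem_sigma, and_true] at hp ⊢
      exact hp
    · intro p hp
      simp only [Finset.mem_filter, Finset.mem_univ, true_and, Finset.mem_sigma, and_true] at hp ⊢
      exact hp
    · intro p _; rfl
    · intro p _; rfl
  have h3 : ∀ x : C, ((univ : Finset C).filter (fun y => Commute x y)).card =
      Nat.card (Subgroup.centralizer {x}) := by
    intro x
    rw [Nat.card_eq_fintype_card]
    rw [Fintype.card_subtype]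
    congr 1
    ext y
    simp only [Finset.mem_filter, Finset.mem_univ, true_and, Subgroup.mem_centralizer_singleton_iff]
    exact ⟨fun h => h.eq.symm, fun h => (show Commute x y from h.symm)⟩
  have h4 : ∀ x : C, Nat.card (Subgroup.centralizer {x}) ≤
      8 + (if x ∈ Subgroup.center C then 8 else 0) := by
    intro x
    have hd : Nat.card (Subgroup.centralizer {x}) ∣ 16 := h ▸ Subgroup.card_subgroup_dvd_card _
    have hle : Nat.card (Subgroup.centralizer {x}) ≤ 16 := Nat.le_of_dvd (by norm_num) hd
    split_ifs with hx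
    · omega
    · have hne : Nat.card (Subgroup.centralizer {x}) ≠ 16 := by
        intro h16
        apply hx
        have htop : Subgroup.centralizer {x} = ⊤ := by
          apply Subgroup.eq_top_of_card_eq
          rw [h16, h]
        rw [Subgroup.mem_center_iff]
        intro g
        have : g ∈ Subgroup.centralizer {x} := htop ▸ Subgroup.mem_top g
        rw [Subgroup.mem_centralizer_singleton_iff] at this
        exact this
      generalize Nat.card (Subgroup.centralizer {x}) = z at hd hle hne
      interval_cases z <;> simp_all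
  have h5 : ∑ x : C, ((univ : Finset C).filter (fun y => Commute x y)).card ≤
      ∑ x : C, (8 + (if x ∈ Subgroup.center C then 8 else 0)) :=
    Finset.sum_le_sum (fun x _ => (h3 x).le.trans (h4 x))
  rw [Finset.sum_add_distrib, Finset.sum_const, ← Finset.sum_filter, Finset.sum_const,
    Finset.card_univ, ← Nat.card_eq_fintype_card, h, smul_eq_mul, smul_eq_mul] at h5
  have h6 : ((univ : Finset C).filter (fun x => x ∈ Subgroup.center C)).card ≤ 4 := by
    rw [← Fintype.card_subtype, ← Nat.card_eq_fintype_card]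
    exact hZ
  have : kcl C * 16 ≤ 160 := by
    rw [← h1, h2]
    omega
  omega

namespace P32

theorem cpn_P32 : cpn (fun _ : P32 => True) (fun _ => True) = 352 := by
  rw [← cnt_all]
  unfold cpn
  rw [← Nat.card_eq_fintype_card]
  apply Nat.card_congr
  apply Equiv.subtypeEquivRight
  intro p
  unfold ct Commute SemiconjBy
  simp

theorem cpn_P32_b : cpn (fun x : P32 => x.b = 0) (fun x => x.b = 0) = 112 := by
  rw [← cnt_sub]
  unfold cpn
  rw [← Nat.card_eq_fintype_card]
  apply Nat.card_congr
  apply Equiv.subtypeEquivRight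
  intro p
  unfold ct Commute SemiconjBy
  simp

theorem kcl_P32 : kcl P32 = 11 := by
  have h := cpn_true (G := P32)
  rw [cpn_P32, card] at h
  omega

/-- subgroups of order 16 are not abelian -/
theorem nonab (C : Subgroup P32) (hC : Nat.card C = 16) : ¬ ∀ x y : C, x * y = y * x := by
  intro hcomm
  have h1 : Nat.card C ≤ Nat.card {x : P32 // 16 ≤ Fintype.card {y : P32 // ct x y = true}} := by
    apply Nat.card_le_card_of_injective
      (fun x : C => (⟨x.1, by
        rw [← hC, ← Nat.card_eq_fintype_card]
        apply Nat.card_le_card_of_injective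
          (fun y : C => (⟨y.1, decide_eq_true (congrArg Subtype.val (hcomm x y))⟩ :
            {y : P32 // ct x.1 y = true}))
        intro y y' h
        have h' := Subtype.mk.inj h
        exact Subtype.ext h'⟩ :
        {x : P32 // 16 ≤ Fintype.card {y : P32 // ct x y = true}}))
    intro x x' h
    have h' := Subtype.mk.inj h
    exact Subtype.ext h'
  rw [hC, Nat.card_eq_fintype_card, cnt_big] at h1
  omega

/-- class numbers of subgroups of the Sylow 2-subgroup -/
theorem sub_bound (C : Subgroup P32) : kcl C ≤ 10 ∨ (C = ⊤ ∧ kcl C ≤ 11) := by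
  have hd : Nat.card C ∣ 32 := card ▸ Subgroup.card_subgroup_dvd_card C
  have hle : Nat.card C ≤ 32 := Nat.le_of_dvd (by norm_num) hd
  have h := kcl_le_card C
  by_cases h32 : Nat.card C = 32
  · right
    have htop : C = ⊤ := Subgroup.eq_top_of_card_eq C (by rw [h32, card])
    refine ⟨htop, ?_⟩
    rw [← kcl_P32]
    apply le_of_eq
    subst htop
    exact kcl_congr Subgroup.topEquiv
  · left
    by_cases h16 : Nat.card C = 16
    · exact kcl_16 C h16 (nonab C h16)
    · have : Nat.card C ≤ 8 := by
        generalize Nat.card C = z at hd hle h32 h16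
        interval_cases z <;> simp_all
      omega

/-- the embedding into `A` -/
def ψA : P32 →* A := ψ.codRestrict A ψ_mem

theorem ψA_inj : Function.Injective ψA := by
  rw [injective_iff_map_eq_one]
  intro x hx
  exact ψ0_inj x (congrArg Subtype.val hx)

theorem ε_ψA (x : P32) : ε (ψA x) = Multiplicative.ofAdd x.b := ψ_snd x

end P32

instance : Fact (Nat.Prime 5) := ⟨Nat.prime_five⟩

theorem fact2 : (1440 : ℕ).factorization 2 = 5 := by
  have : (1440 : ℕ) = 2 ^ 5 * 45 := by norm_num
  rw [this, Nat.factorization_mul (by norm_num) (by norm_num)]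
  rw [Finsupp.add_apply, Nat.Prime.factorization_pow Nat.prime_two]
  rw [Nat.factorization_eq_zero_of_not_dvd (n := 45) (p := 2) (by norm_num)]
  simp

/-- 2-subgroups of `A` -/
theorem two_bound (B : Subgroup A) (hB : Nat.card B ∣ 32) :
    kcl B ≤ 10 ∨ (Nat.card B = 32 ∧ kcl B ≤ 11 ∧
      cpn (fun x => x ∈ B ∧ ε x = 1) (fun x => x ∈ B ∧ ε x = 1) = 112) := by
  have hp : IsPGroup 2 B := by
    obtain ⟨k, _, hk⟩ := (Nat.dvd_prime_pow Nat.prime_two).1 (show Nat.card B ∣ 2 ^ 5 from hB)
    exact IsPGroup.of_card hk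
  obtain ⟨Q, hQ⟩ := hp.exists_le_sylow
  have hR : Nat.card P32.ψA.range = 32 := by
    rw [← P32.card]
    exact (Nat.card_congr (MonoidHom.ofInjective P32.ψA_inj).toEquiv).symm
  let R : Sylow 2 A := Sylow.ofCard P32.ψA.range (by rw [hR, card_A, fact2]; norm_num)
  obtain ⟨g, hg⟩ := MulAction.exists_smul_eq A Q R
  -- the conjugate of `B`
  set c : A →* A := (MulAut.conj g).toMonoidHom with hc
  have hcinj : Function.Injective c := (MulAut.conj g).injective
  have hcapp : ∀ x, c x = g * x * g⁻¹ := fun x => rfl
  have hle : B.map c ≤ P32.ψA.range := by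
    have h1 : (R : Subgroup A) = P32.ψA.range := rfl
    rw [← h1, ← hg, Sylow.coe_subgroup_smul]
    intro x hx
    obtain ⟨y, hy, rfl⟩ := Subgroup.mem_map.1 hx
    exact Subgroup.smul_mem_pointwise_smul y (MulAut.conj g) _ (hQ hy)
  set C : Subgroup P32 := (B.map c).comap P32.ψA with hCdef
  have hCmap : C.map P32.ψA = B.map c := by
    rw [hCdef, Subgroup.map_comap_eq]
    exact inf_eq_right.2 hle
  have e1 : B ≃* B.map c := B.equivMapOfInjective c hcinj
  have e2 : C ≃* C.map P32.ψA := C.equivMapOfInjective _ P32.ψA_inj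
  have e3 : C ≃* B := (e2.trans (MulEquiv.subgroupCongr hCmap)).trans e1.symm
  have hk : kcl B = kcl C := (kcl_congr e3).symm
  rcases P32.sub_bound C with h | ⟨htop, h⟩
  · left; rw [hk]; exact h
  · right
    refine ⟨?_, ?_, ?_⟩
    · rw [← Nat.card_congr e3.toEquiv, htop, Subgroup.card_top, P32.card]
    · rw [hk]; exact h
    · rw [← P32.cpn_P32_b]
      have hεc : ∀ x, ε (c x) = ε x := by
        intro x
        rw [hcapp, map_mul, map_mul, map_inv]
        rw [mul_comm (ε g), mul_assoc, mul_inv_cancel, mul_one]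
      have h1 : cpn (fun x => x ∈ B ∧ ε x = 1) (fun x => x ∈ B ∧ ε x = 1) =
          cpn (fun x => x ∈ B.map c ∧ ε x = 1) (fun x => x ∈ B.map c ∧ ε x = 1) := by
        apply cpn_map c hcinj
        · intro x hx
          exact ⟨Subgroup.mem_map_of_mem c hx.1, by rw [hεc]; exact hx.2⟩
        · rintro k ⟨hk1, hk2⟩
          obtain ⟨x, hx, rfl⟩ := Subgroup.mem_map.1 hk1
          exact ⟨x, ⟨hx, by rw [← hεc]; exact hk2⟩, rfl⟩
      rw [h1]
      symm
      apply cpn_map P32.ψA P32.ψA_inj
      · intro x hx
        refine ⟨?_, ?_⟩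
        · rw [← hCmap, htop]; exact Subgroup.mem_map_of_mem _ (Subgroup.mem_top _)
        · rw [P32.ε_ψA, hx]; rfl
      · rintro k ⟨hk1, hk2⟩
        obtain ⟨x, rfl⟩ := hle hk1
        refine ⟨x, ?_, rfl⟩
        rw [P32.ε_ψA] at hk2
        exact Multiplicative.ofAdd.injective hk2

end Pool.Agent.V1115.KL
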