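import Pool.Agent.V1115.KL.Sub2

/-!
# Subgroups of `PΓL(2,9)` of order divisible by 5 and prime to 3
-/

namespace Pool.Agent.V1115.KL

open Finset
open scoped Pointwise

/-- an element of order 5 -/
def g5 : A := ⟨wel (8, 0, 2, 0), wel_mem_A _⟩

theorem g5_pow : g5 ^ 5 = 1 := by
  apply Subtype.ext
  change wel (8, 0, 2, 0) ^ 5 = 1
  decide +kernel

theorem g5_ne : g5 ≠ 1 := by
  intro h
  have : wel (8, 0, 2, 0) = 1 := congrArg Subtype.val h
  revert this
  decide +kernel

theorem g5_order : orderOf g5 = 5 := orderOf_eq_prime g5_pow g5_ne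

theorem g5_9 : (wel (8, 0, 2, 0)).1 9 = 8 := by decide +kernel
theorem g5_8 : (wel (8, 0, 2, 0)).1 8 = 0 := by decide +kernel
theorem g5_0 : (wel (8, 0, 2, 0)).1 0 = 5 := by decide +kernel
theorem f_5 : f.1 5 ≠ 5 := by decide +kernel

theorem cent5_fix (x : A) (hx : Commute x g5) (h9 : x.1.1 9 = 9) : x = 1 := by
  have hc : ∀ i, x.1.1 ((wel (8, 0, 2, 0)).1 i) = (wel (8, 0, 2, 0)).1 (x.1.1 i) := by
    intro i
    have h : x.1 * wel (8, 0, 2, 0) = wel (8, 0, 2, 0) * x.1 := congrArg Subtype.val hx.eq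
    have h' := congrArg (fun y : Am => y.1 i) h
    simp only [Prod.fst_mul, Equiv.Perm.mul_apply] at h'
    exact h'
  have h8 : x.1.1 8 = 8 := by
    have := hc 9
    rw [g5_9, h9, g5_9] at this; exact this
  have h0 : x.1.1 0 = 0 := by
    have := hc 8
    rw [g5_8, h8, g5_8] at this; exact this
  have h5 : x.1.1 5 = 5 := by
    have := hc 0
    rw [g5_0, h0, g5_0] at this; exact this
  rcases fix3 x.1 x.2 h9 h8 h0 with h | h
  · exact Subtype.ext h
  · rw [h] at h5
    exact absurd h5 f_5

theorem cent5_card : Nat.card {x : A // Commute g5 x} ≤ 10 := by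
  have : Nat.card {x : A // Commute g5 x} ≤ Nat.card (Fin 10) := by
    apply Nat.card_le_card_of_injective (fun x => x.1.1.1 9)
    intro x y h
    have h' : x.1.1.1 9 = y.1.1.1 9 := h
    have hz : x.1⁻¹ * y.1 = 1 := by
      apply cent5_fix
      · exact (x.2.symm.inv_left.mul_left y.2.symm)
      · have e : (x.1⁻¹ * y.1).1.1 9 = (x.1.1.1)⁻¹ (y.1.1.1 9) := rfl
        rw [e, ← h']
        exact Equiv.symm_apply_apply _ _
    apply Subtype.ext
    rw [inv_mul_eq_one] at hz
    exact hz
  simpa using this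

theorem fact5 : (1440 : ℕ).factorization 5 = 1 := by
  have : (1440 : ℕ) = 5 ^ 1 * 288 := by norm_num
  rw [this, Nat.factorization_mul (by norm_num) (by norm_num)]
  rw [Finsupp.add_apply, Nat.Prime.factorization_pow Nat.prime_five]
  rw [Nat.factorization_eq_zero_of_not_dvd (n := 288) (p := 5) (by norm_num)]
  simp

theorem cent5_all (z : A) (hz : orderOf z = 5) : Nat.card {x : A // Commute z x} ≤ 10 := by
  have hcz : Nat.card (Subgroup.zpowers z) = 5 ^ (Nat.card A).factorization 5 := by
    rw [Nat.card_zpowers, hz, card_A, fact5]; norm_num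
  have hcg : Nat.card (Subgroup.zpowers g5) = 5 ^ (Nat.card A).factorization 5 := by
    rw [Nat.card_zpowers, g5_order, card_A, fact5]; norm_num
  let Q : Sylow 5 A := Sylow.ofCard _ hcz
  let R : Sylow 5 A := Sylow.ofCard _ hcg
  obtain ⟨g, hg⟩ := MulAction.exists_smul_eq A Q R
  have h1 : g5 ∈ (MulAut.conj g) • (Subgroup.zpowers z) := by
    have e : ((g • Q : Sylow 5 A) : Subgroup A) = (MulAut.conj g) • (Subgroup.zpowers z) :=
      Sylow.coe_subgroup_smul
    rw [← e, hg]
    exact Subgroup.mem_zpowers g5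
  obtain ⟨y, hy, hy2⟩ := Subgroup.mem_smul_pointwise_iff_exists _ _ _ |>.1 h1
  obtain ⟨k, rfl⟩ := Subgroup.mem_zpowers_iff.1 hy
  have hy2' : g * z ^ k * g⁻¹ = g5 := hy2
  refine le_trans ?_ cent5_card
  apply Nat.card_le_card_of_injective
    (fun x : {x : A // Commute z x} => (⟨g * x.1 * g⁻¹, by
      have h2 : Commute (z ^ k) x.1 := x.2.zpow_left k
      rw [← hy2']
      unfold Commute SemiconjBy
      calc g * z ^ k * g⁻¹ * (g * x.1 * g⁻¹) = g * (z ^ k * x.1) * g⁻¹ := by group
        _ = g * (x.1 * z ^ k) * g⁻¹ := by rw [h2.eq]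
        _ = g * x.1 * g⁻¹ * (g * z ^ k * g⁻¹) := by group⟩ : {x : A // Commute g5 x}))
  intro x x' h
  have h' := Subtype.mk.inj h
  apply Subtype.ext
  exact mul_left_cancel (mul_right_cancel h')

/-- the map to the Klein four group -/
def θ : A →* ℤˣ × Multiplicative (ZMod 2) :=
  (MonoidHom.prodMap Equiv.Perm.sign (MonoidHom.id _)).comp A.subtype

theorem θ_apply (x : A) : θ x = (Equiv.Perm.sign x.1.1, x.1.2) := rfl

theorem θ_sq (x : A) : θ x ^ 2 = 1 := by
  have key : ∀ q : ℤˣ × Multiplicative (ZMod 2), q ^ 2 = 1 := by decide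
  exact key _

theorem sgn_m : (Equiv.Perm.sign m.1, m.2) = ((-1 : ℤˣ), Multiplicative.ofAdd (0 : ZMod 2)) := by
  decide +kernel
theorem sgn_f : (Equiv.Perm.sign f.1, f.2) = ((-1 : ℤˣ), Multiplicative.ofAdd (1 : ZMod 2)) := by
  decide +kernel

theorem θ_surj : Function.Surjective θ := by
  intro q
  have hm : θ ⟨m, A1_le (A2_le m_mem2)⟩ = ((-1 : ℤˣ), Multiplicative.ofAdd (0 : ZMod 2)) := sgn_m
  have hf : θ ⟨f, A1_le (A2_le f_mem2)⟩ = ((-1 : ℤˣ), Multiplicative.ofAdd (1 : ZMod 2)) := sgn_f
  have key : ∀ q : ℤˣ × Multiplicative (ZMod 2), ∃ a b : Fin 2,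
      ((-1 : ℤˣ), Multiplicative.ofAdd (0 : ZMod 2)) ^ a.1 *
      ((-1 : ℤˣ), Multiplicative.ofAdd (1 : ZMod 2)) ^ b.1 = q := by decide
  obtain ⟨a, b, hab⟩ := key q
  refine ⟨(⟨m, A1_le (A2_le m_mem2)⟩) ^ a.1 * (⟨f, A1_le (A2_le f_mem2)⟩) ^ b.1, ?_⟩
  rw [map_mul, map_pow, map_pow, hm, hf, hab]

theorem card_ker : Nat.card θ.ker = 360 := by
  have h1 := Subgroup.index_mul_card θ.ker
  rw [Subgroup.index_ker, card_A] at h1
  have h2 : Nat.card θ.range = 4 := by
    rw [MonoidHom.range_eq_top.2 θ_surj, Subgroup.card_top]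
    rw [Nat.card_eq_fintype_card]; decide
  rw [h2] at h1
  omega

/-- elements of order 5 of a subgroup of order dividing 160 generate the same subgroup -/
theorem five_unique (B : Subgroup A) (hB : Nat.card B ∣ 160) (y z : A) (hy : y ∈ B) (hz : z ∈ B)
    (oy : orderOf y = 5) (oz : orderOf z = 5) : z ∈ Subgroup.zpowers y := by
  set K : Subgroup A := B ⊓ θ.ker with hK
  have hmem : ∀ x, orderOf x = 5 → x ∈ θ.ker := by
    intro x hx
    rw [MonoidHom.mem_ker]
    have h2 := θ_sq x
    have h5 : θ x ^ 5 = 1 := by rw [← map_pow, ← hx, pow_orderOf_eq_one, map_one]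
    calc θ x = θ x ^ 5 * ((θ x ^ 2) ^ 2)⁻¹ := by group
      _ = 1 := by rw [h2, h5]; simp
  have hKd : Nat.card K ∣ 40 := by
    have h1 : Nat.card K ∣ 160 := (Subgroup.card_dvd_of_le inf_le_left).trans hB
    have h2 : Nat.card K ∣ 360 := by
      have := Subgroup.card_dvd_of_le (show K ≤ θ.ker from inf_le_right)
      rwa [card_ker] at this
    have := Nat.dvd_gcd h1 h2
    norm_num at this
    exact this
  let y' : K := ⟨y, hy, hmem y oy⟩
  let z' : K := ⟨z, hz, hmem z oz⟩
  have oy' : orderOf y' = 5 := by rw [← oy]; exact (Subgroup.orderOf_coe y').symm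
  have oz' : orderOf z' = 5 := by rw [← oz]; exact (Subgroup.orderOf_coe z').symm
  have h5 : 5 ∣ Nat.card K := oy' ▸ orderOf_dvd_natCard y'
  have hf : (Nat.card K).factorization 5 = 1 := by
    obtain ⟨c, hc⟩ := h5
    have hc8 : c ∣ 8 := by
      rw [hc] at hKd
      exact (Nat.mul_dvd_mul_iff_left (by norm_num : 0 < 5)).1 (by simpa using hKd)
    have hc0 : c ≠ 0 := by rintro rfl; simp at hc8
    have hn : ¬ 5 ∣ c := by
      intro h
      have := h.trans hc8
      norm_num at this
    rw [hc, Nat.factorization_mul (by norm_num) hc0, Finsupp.add_apply,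
      Nat.Prime.factorization_self Nat.prime_five, Nat.factorization_eq_zero_of_not_dvd hn]
  let Q : Sylow 5 K := Sylow.ofCard (Subgroup.zpowers y') (by
    rw [Nat.card_zpowers, oy', hf]; norm_num)
  let R : Sylow 5 K := Sylow.ofCard (Subgroup.zpowers z') (by
    rw [Nat.card_zpowers, oz', hf]; norm_num)
  have hn1 := card_sylow_modEq_one 5 K
  have hn2 := Q.card_dvd_index
  have hidx : (Q : Subgroup K).index * 5 = Nat.card K := by
    have := Subgroup.index_mul_card (Q : Subgroup K)
    have hc : Nat.card (Q : Subgroup K) = 5 := by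
      change Nat.card (Subgroup.zpowers y') = 5
      rw [Nat.card_zpowers, oy']
    rwa [hc] at this
  have hn3 : Nat.card (Sylow 5 K) ∣ 8 := by
    refine hn2.trans ?_
    rw [← hidx] at hKd
    exact (Nat.mul_dvd_mul_iff_right (by norm_num : 0 < 5)).1 (by simpa using hKd)
  have hn4 : Nat.card (Sylow 5 K) = 1 := by
    have hle : Nat.card (Sylow 5 K) ≤ 8 := Nat.le_of_dvd (by norm_num) hn3
    unfold Nat.ModEq at hn1
    generalize Nat.card (Sylow 5 K) = n at hn1 hn3 hle
    interval_cases n <;> simp_all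
  have hsub : Subsingleton (Sylow 5 K) := (Nat.card_eq_one_iff_unique.1 hn4).1
  have hQR : Q = R := Subsingleton.elim _ _
  have h6 : (Q : Subgroup K) = (R : Subgroup K) := by rw [hQR]
  have h7 : Subgroup.zpowers y' = Subgroup.zpowers z' := h6
  have h8 : z' ∈ Subgroup.zpowers y' := h7 ▸ Subgroup.mem_zpowers z'
  obtain ⟨k, hk⟩ := Subgroup.mem_zpowers_iff.1 h8
  rw [Subgroup.mem_zpowers_iff]
  exact ⟨k, congrArg Subtype.val hk⟩

/-- the centraliser in `K` of an element not commuting with `y ∈ K` has index at least 5 -/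
theorem cent_index (K : Subgroup A) (y : A) (hy : y ∈ K) (oy : orderOf y = 5) (x : A)
    (hx : ¬ Commute y x) : 5 * Nat.card {z : A // z ∈ K ∧ Commute x z} ≤ Nat.card K := by
  have hdis : Disjoint (Subgroup.zpowers y) (Subgroup.centralizer {x}) := by
    rw [Subgroup.disjoint_def]
    intro q hq hqx
    obtain ⟨k, rfl⟩ := Subgroup.mem_zpowers_iff.1 hq
    by_contra hne
    apply hx
    have hcop : Int.gcd k 5 = 1 := by
      rcases (Nat.dvd_prime Nat.prime_five).1
        (Int.gcd_dvd_natAbs_right k 5 : Int.gcd k 5 ∣ 5) with h | h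
      · exact h
      · exfalso; apply hne
        have h5 : (5 : ℤ) ∣ k := by
          have := Int.gcd_dvd_left (a := k) (b := 5)
          rwa [h] at this
        obtain ⟨l, rfl⟩ := h5
        rw [zpow_mul]
        have : y ^ (5 : ℤ) = 1 := by
          have := pow_orderOf_eq_one y
          rw [oy] at this
          exact_mod_cast this
        rw [this, one_zpow]
    have hb := Int.gcd_eq_gcd_ab k 5
    rw [hcop] at hb
    have hy1 : y = (y ^ k) ^ (Int.gcdA k 5) := by
      rw [← zpow_mul]
      have : y ^ (5 : ℤ) = 1 := by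
        have := pow_orderOf_eq_one y
        rw [oy] at this
        exact_mod_cast this
      have e : k * Int.gcdA k 5 = 1 - 5 * Int.gcdB k 5 := by
        push_cast at hb; linarith
      rw [e, zpow_sub, zpow_mul, this]; simp
    rw [hy1]
    rw [Subgroup.mem_centralizer_singleton_iff] at hqx
    exact Commute.zpow_left (show Commute (y ^ k) x from hqx) _
  have hinj := Subgroup.mul_injective_of_disjoint hdis
  have h5 : Nat.card (Subgroup.zpowers y) = 5 := by rw [Nat.card_zpowers, oy]
  rw [← h5, ← Nat.card_prod]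
  apply Nat.card_le_card_of_injective
    (fun q : Subgroup.zpowers y × {z : A // z ∈ K ∧ Commute x z} =>
      (⟨q.1.1 * q.2.1, K.mul_mem
        ((Subgroup.zpowers_le.2 hy) q.1.2) q.2.2.1⟩ : K))
  intro q q' h
  have h' : q.1.1 * q.2.1 = q'.1.1 * q'.2.1 := Subtype.mk.inj h
  have hz : ∀ z : A, Commute x z → z ∈ Subgroup.centralizer {x} := by
    intro z hz
    rw [Subgroup.mem_centralizer_singleton_iff]
    exact hz.eq.symm
  have := @hinj (q.1, ⟨q.2.1, hz _ q.2.2.2⟩) (q'.1, ⟨q'.2.1, hz _ q'.2.2.2⟩) h'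
  simp only [Prod.mk.injEq, Subtype.mk.injEq] at this
  exact Prod.ext this.1 (Subtype.ext this.2)

/-- subgroups of `A` of order divisible by 5 and prime to 3 -/
theorem five_bound (B : Subgroup A) (hB : Nat.card B ∣ 160) (h5 : 5 ∣ Nat.card B) :
    kcl B ≤ 10 := by
  classical
  have := Fintype.ofFinite A
  obtain ⟨y0, hy0⟩ := exists_prime_orderOf_dvd_card' 5 h5
  set y : A := y0.1 with hydef
  have hyB : y ∈ B := y0.2
  have oy : orderOf y = 5 := by rw [← hy0]; exact Subgroup.orderOf_coe y0
  -- the centraliser of `y` in `B`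
  set C : Subgroup A := B ⊓ Subgroup.centralizer {y} with hC
  have hCmem : ∀ x, x ∈ C ↔ x ∈ B ∧ Commute y x := by
    intro x
    rw [hC, Subgroup.mem_inf, Subgroup.mem_centralizer_singleton_iff]
    exact ⟨fun h => ⟨h.1, h.2.symm⟩, fun h => ⟨h.1, h.2.eq.symm⟩⟩
  have hCle : C ≤ B := inf_le_left
  have hyC : y ∈ C := (hCmem y).2 ⟨hyB, Commute.refl y⟩
  have hC10 : Nat.card C ≤ 10 := by
    refine le_trans ?_ (cent5_all y oy)
    apply Nat.card_le_card_of_injective
      (fun x : C => (⟨x.1, ((hCmem x.1).1 x.2).2⟩ : {x : A // Commute y x}))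
    intro x x' h
    exact Subtype.ext (Subtype.mk.inj h)
  -- the index
  have hidx : Nat.card B = C.relIndex B * Nat.card C := by
    have h1 := Subgroup.relIndex_mul_relIndex ⊥ C B bot_le hCle
    rw [Subgroup.relIndex_bot_left, Subgroup.relIndex_bot_left] at h1
    rw [← h1, mul_comm]
  have hr4 : C.relIndex B ≤ 4 := by
    have himg : ∀ b : B, ∃ k : Fin 4, b.1 * y * b.1⁻¹ = y ^ (k.1 + 1) := by
      intro b
      have hb : b.1 * y * b.1⁻¹ ∈ B := B.mul_mem (B.mul_mem b.2 hyB) (B.inv_mem b.2)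
      have ob : orderOf (b.1 * y * b.1⁻¹) = 5 := by
        rw [← oy]
        have := orderOf_injective (MulAut.conj b.1).toMonoidHom (MulAut.conj b.1).injective y
        exact this
      have hmem := five_unique B hB y _ hyB hb oy ob
      obtain ⟨k, hk⟩ := (mem_zpowers_iff_mem_range_orderOf (x := y)).1 hmem |>
        Finset.mem_image.1
      rw [Finset.mem_range, oy] at hk
      obtain ⟨hk1, hk2⟩ := hk
      have hk0 : k ≠ 0 := by
        rintro rfl
        rw [pow_zero] at hk2
        rw [← hk2, orderOf_one] at ob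
        norm_num at ob
      exact ⟨⟨k - 1, by omega⟩, by rw [← hk2]; congr 1; simp only; omega⟩
    choose κ hκ using himg
    have h1 : C.relIndex B ≤ Nat.card (Fin 4) := by
      unfold Subgroup.relIndex Subgroup.index
      apply Nat.card_le_card_of_injective
        (fun q : B ⧸ C.subgroupOf B => κ (Quotient.out q))
      intro q q' h
      have h' : κ (Quotient.out q) = κ (Quotient.out q') := h
      have e1 := hκ (Quotient.out q)
      have e2 := hκ (Quotient.out q')
      rw [← h'] at e2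
      have e3 : (Quotient.out q).1 * y * (Quotient.out q).1⁻¹ =
        (Quotient.out q').1 * y * (Quotient.out q').1⁻¹ := e1.trans e2.symm
      rw [← Quotient.out_eq q, ← Quotient.out_eq q']
      apply QuotientGroup.eq.2
      rw [Subgroup.mem_subgroupOf, hCmem]
      refine ⟨?_, ?_⟩
      · exact ((Quotient.out q)⁻¹ * Quotient.out q').2
      · have e4 : ((Quotient.out q)⁻¹ * Quotient.out q').1 =
          (Quotient.out q).1⁻¹ * (Quotient.out q').1 := rfl
        rw [e4]
        unfold Commute SemiconjBy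
        calc y * ((Quotient.out q).1⁻¹ * (Quotient.out q').1)
            = (Quotient.out q).1⁻¹ * ((Quotient.out q).1 * y * (Quotient.out q).1⁻¹) *
              (Quotient.out q').1 := by group
          _ = (Quotient.out q).1⁻¹ * ((Quotient.out q').1 * y * (Quotient.out q').1⁻¹) *
              (Quotient.out q').1 := by rw [e3]
          _ = (Quotient.out q).1⁻¹ * (Quotient.out q').1 * y := by group
    simpa using h1
  have hr1 : 1 ≤ C.relIndex B := by
    rcases Nat.eq_zero_or_pos (C.relIndex B) with h | h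
    · rw [h, zero_mul] at hidx
      have : 0 < Nat.card B := Nat.card_pos
      omega
    · exact h
  -- the counts
  have hb : ((univ : Finset A).filter (fun x => x ∈ B)).card = Nat.card B := by
    rw [Nat.card_eq_fintype_card, Fintype.card_subtype]
  have hc : ((univ : Finset A).filter (fun x => x ∈ C)).card = Nat.card C := by
    rw [Nat.card_eq_fintype_card, Fintype.card_subtype]
  have hbc : ((univ : Finset A).filter (fun x => x ∈ B ∧ x ∉ C)).card + Nat.card C =
      Nat.card B := by
    rw [← hb, ← hc]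
    rw [← Finset.card_union_of_disjoint]
    · congr 1
      ext x
      simp only [Finset.mem_union, Finset.mem_filter, Finset.mem_univ, true_and]
      constructor
      · rintro (h | h)
        · exact h.1
        · exact hCle h
      · intro h
        by_cases hx : x ∈ C
        · exact Or.inr hx
        · exact Or.inl ⟨h, hx⟩
    · rw [Finset.disjoint_filter]
      intro x _ h1 h2
      exact h1.2 h2
  have hS : ∀ (P Q : A → Prop) [DecidablePred P] [DecidablePred Q], cpn P Q = ∑ x ∈ (univ : Finset A).filter P,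
      ((univ : Finset A).filter (fun z => Q z ∧ Commute x z)).card := by
    intro P Q _ _
    rw [cpn_eq_card, ← Finset.card_sigma]
    refine Finset.card_bij' (fun p _ => (⟨p.1, p.2⟩ : (_ : A) × A)) (fun q _ => (q.1, q.2))
      ?_ ?_ ?_ ?_
    · intro p hp
      simp only [Finset.mem_filter, Finset.mem_univ, true_and, Finset.mem_sigma] at hp ⊢
      tauto
    · intro p hp
      simp only [Finset.mem_filter, Finset.mem_univ, true_and, Finset.mem_sigma] at hp ⊢
      tauto
    · intro p _; rfl
    · intro p _; rfl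
  have hsplit : cpn (fun x => x ∈ B) (fun x => x ∈ B) ≤
      cpn (fun x => x ∈ B ∧ x ∉ C) (fun x => x ∈ B) +
      (cpn (fun x => x ∈ B ∧ x ∉ C) (fun x => x ∈ C) +
        Nat.card C * Nat.card C) := by
    have e1 : cpn (fun x => x ∈ B ∧ x ∉ C) (fun x => x ∈ C) =
        cpn (fun x => x ∈ C) (fun x => x ∈ B ∧ x ∉ C) := by
      unfold cpn
      apply Nat.card_congr
      refine ⟨fun p => ⟨(p.1.2, p.1.1), p.2.1.symm, p.2.2.2, p.2.2.1⟩,
        fun p => ⟨(p.1.2, p.1.1), p.2.1.symm, p.2.2.2, p.2.2.1⟩, fun p => rfl, fun p => rfl⟩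
    have e2 : Nat.card C * Nat.card C =
        (((univ : Finset A).filter (fun x => x ∈ C)) ×ˢ
          ((univ : Finset A).filter (fun x => x ∈ C))).card := by
      rw [Finset.card_product, hc]
    rw [e1, e2, cpn_eq_card, cpn_eq_card, cpn_eq_card]
    refine le_trans (Finset.card_le_card ?_)
      (le_trans (Finset.card_union_le _ _) (Nat.add_le_add_left (Finset.card_union_le _ _) _))
    intro p hp
    simp only [Finset.mem_filter, Finset.mem_univ, true_and, Finset.mem_union,
      Finset.mem_product] at hp ⊢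
    tauto
  have hb1 : 5 * cpn (fun x => x ∈ B ∧ x ∉ C) (fun x => x ∈ B) ≤
      ((univ : Finset A).filter (fun x => x ∈ B ∧ x ∉ C)).card * Nat.card B := by
    rw [hS, Finset.mul_sum, ← smul_eq_mul, ← Finset.sum_const]
    apply Finset.sum_le_sum
    intro x hx
    simp only [Finset.mem_filter, Finset.mem_univ, true_and] at hx
    have := cent_index B y hyB oy x (fun h => hx.2 ((hCmem x).2 ⟨hx.1, h⟩))
    rwa [Nat.card_eq_fintype_card, Fintype.card_subtype] at this
  have hb2 : 5 * cpn (fun x => x ∈ B ∧ x ∉ C) (fun x => x ∈ C) ≤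
      ((univ : Finset A).filter (fun x => x ∈ B ∧ x ∉ C)).card * Nat.card C := by
    rw [hS, Finset.mul_sum, ← smul_eq_mul, ← Finset.sum_const]
    apply Finset.sum_le_sum
    intro x hx
    simp only [Finset.mem_filter, Finset.mem_univ, true_and] at hx
    have := cent_index C y hyC oy x (fun h => hx.2 ((hCmem x).2 ⟨hx.1, h⟩))
    rwa [Nat.card_eq_fintype_card, Fintype.card_subtype] at this
  rw [cpn_subgroup] at hsplit
  set r := C.relIndex B with hr
  set c := Nat.card C with hcdef
  set d := ((univ : Finset A).filter (fun x => x ∈ B ∧ x ∉ C)).card with hd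
  rw [hidx] at hsplit hb1 hbc
  have hcpos : 0 < c := Nat.card_pos
  -- `5 k r c ≤ d (r c + c) + 5 c²`, `d = (r - 1) c`
  have hdval : d = (r - 1) * c := by
    have : r * c = (r - 1) * c + c := by
      obtain ⟨s, hs⟩ : ∃ s, r = s + 1 := ⟨r - 1, by omega⟩
      rw [hs]; simp; ring
    omega
  have hfin : 5 * (kcl B * (r * c)) ≤ (r - 1) * c * (r * c) + ((r - 1) * c * c + 5 * (c * c)) := by
    rw [hdval] at hb1 hb2
    omega
  have hfin2 : (5 * (kcl B * r)) * c ≤ (((r - 1) * r + (r - 1) + 5) * c) * c := by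
    calc (5 * (kcl B * r)) * c = 5 * (kcl B * (r * c)) := by ring
      _ ≤ _ := hfin
      _ = _ := by ring
  have hfin3 : 5 * (kcl B * r) ≤ ((r - 1) * r + (r - 1) + 5) * c :=
    Nat.le_of_mul_le_mul_right hfin2 hcpos
  have hfin4 : 5 * (kcl B * r) ≤ ((r - 1) * r + (r - 1) + 5) * 10 :=
    hfin3.trans (Nat.mul_le_mul_left _ hC10)
  clear_value r c d
  interval_cases r <;> omega

end Pool.Agent.V1115.KL
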