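import Pool.Agent.V1115.KL.Mob

/-!
# The Sylow 2-subgroup of `PΓL(2,9)`

It is the holomorph of the cyclic group of order 8.
-/

namespace Pool.Agent.V1115.KL

open Finset

/-- the holomorph of `C_8` -/
@[ext] structure P32 where
  a : ZMod 8
  b : ZMod 2
  c : ZMod 2
  deriving DecidableEq

namespace P32

/-- the units `3^b (-1)^c` -/
def κ (b c : ZMod 2) : ZMod 8 := if b = 0 then (if c = 0 then 1 else 7) else (if c = 0 then 3 else 5)

theorem κ_mul : ∀ b c b' c', κ (b + b') (c + c') = κ b c * κ b' c' := by decide +kernel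
theorem κ_zero : κ 0 0 = 1 := rfl

instance : Mul P32 := ⟨fun x y => ⟨x.a + κ x.b x.c * y.a, x.b + y.b, x.c + y.c⟩⟩
instance : One P32 := ⟨⟨0, 0, 0⟩⟩
instance : Inv P32 := ⟨fun x => ⟨-(κ x.b x.c * x.a), x.b, x.c⟩⟩
theorem mul_def (x y : P32) : x * y = ⟨x.a + κ x.b x.c * y.a, x.b + y.b, x.c + y.c⟩ := rfl
theorem one_def : (1 : P32) = ⟨0, 0, 0⟩ := rfl
theorem inv_def (x : P32) : x⁻¹ = ⟨-(κ x.b x.c * x.a), x.b, x.c⟩ := rfl

theorem add_self2 : ∀ b : ZMod 2, b + b = 0 := by decide

instance : Group P32 := Group.ofLeftAxioms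
  (by
    intro x y z; simp only [mul_def, κ_mul]
    ext <;> simp only <;> ring)
  (by intro x; simp only [mul_def, one_def]; ext <;> simp [κ_zero])
  (by
    intro x; simp only [mul_def, one_def, inv_def]
    ext
    · simp only; ring
    · exact add_self2 _
    · exact add_self2 _)

/-- coordinates -/
def equiv : P32 ≃ ZMod 8 × ZMod 2 × ZMod 2 where
  toFun x := (x.a, x.b, x.c)
  invFun p := ⟨p.1, p.2.1, p.2.2⟩
  left_inv _ := rfl
  right_inv _ := rfl

instance : Fintype P32 := Fintype.ofEquiv _ equiv.symm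

theorem card : Nat.card P32 = 32 := by
  rw [Nat.card_congr equiv]
  simp only [Nat.card_prod, Nat.card_zmod]

/-- underlying function of the embedding -/
def ψ0 (x : P32) : Am := m ^ x.a.val * f ^ x.b.val * w ^ x.c.val

theorem ψ0_mul : ∀ x y : P32, ψ0 (x * y) = ψ0 x * ψ0 y := by decide +kernel

theorem ψ0_inj : ∀ x : P32, ψ0 x = 1 → x = 1 := by decide +kernel

/-- the embedding -/
def ψ : P32 →* Am where
  toFun := ψ0
  map_one' := by decide +kernel
  map_mul' := ψ0_mul

theorem ψ_mem (x : P32) : ψ x ∈ A :=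
  A.mul_mem (A.mul_mem (A.pow_mem (A1_le (A2_le m_mem2)) _) (A.pow_mem (A1_le (A2_le f_mem2)) _))
    (A.pow_mem w_mem _)

/-- boolean commutation test -/
def ct (x y : P32) : Bool := decide (x * y = y * x)

theorem cnt_all : Fintype.card {p : P32 × P32 // ct p.1 p.2 = true} = 352 := by decide +kernel

theorem cnt_sub : Fintype.card {p : P32 × P32 // ct p.1 p.2 = true ∧ p.1.b = 0 ∧ p.2.b = 0}
    = 112 := by decide +kernel

theorem cnt_big : Fintype.card {x : P32 // 16 ≤ Fintype.card {y : P32 // ct x y = true}} = 8 := by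
  decide +kernel

theorem ψ_snd : ∀ x : P32, (ψ0 x).2 = Multiplicative.ofAdd x.b := by decide +kernel

end P32

end Pool.Agent.V1115.KL
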